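import Mathlib

/-!
A growth argument: a subgroup with a ping-pong partner cannot have the full growth rate.
-/

namespace Pool.Agent.H958Z.BiRev

open Finset

variable {G : Type} [Group G]

/-- An abstract word length. -/
structure IsLength (l : G → ℕ) : Prop where
  mul_le : ∀ a b, l (a * b) ≤ l a + l b
  split : ∀ g R, R ≤ l g → ∃ a b, g = a * b ∧ l a = R ∧ l b + R = l g
  finite : ∀ n, {g | l g ≤ n}.Finite

lemma IsLength.sphere_finite {l : G → ℕ} (hl : IsLength l) (n : ℕ) : {g | l g = n}.Finite :=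
  (hl.finite n).subset fun _ hg => le_of_eq hg

lemma bounded_of_sphere {l : G → ℕ} (hl : IsLength l) {t : ℝ} (ht : 0 ≤ t) {R : ℕ}
    (h : ((hl.sphere_finite R).toFinset.card : ℝ) * t ^ R < 1) :
    ∃ M : ℝ, ∀ F : Finset G, ∑ g ∈ F, t ^ l g ≤ M := by
  classical
  set θ := ((hl.sphere_finite R).toFinset.card : ℝ) * t ^ R with hθ
  set A := ∑ g ∈ (hl.finite R).toFinset, t ^ l g with hA
  refine ⟨A / (1 - θ), fun F => ?_⟩
  obtain ⟨N, hN⟩ : ∃ N, ∀ g ∈ F, l g ≤ N := ⟨F.sup l, fun g hg => le_sup hg⟩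
  set S := (hl.finite N).toFinset with hS
  have h1 : ∑ g ∈ F, t ^ l g ≤ ∑ g ∈ S, t ^ l g :=
    sum_le_sum_of_subset_of_nonneg (fun g hg => by simpa [hS] using hN g hg)
      fun _ _ _ => by positivity
  have h2 : ∑ g ∈ S, t ^ l g ≤ A + θ * ∑ g ∈ S, t ^ l g := by
    rw [← sum_filter_add_sum_filter_not S (fun g => l g < R)]
    have h3 : ∑ g ∈ S.filter (fun g => l g < R), t ^ l g ≤ A :=
      sum_le_sum_of_subset_of_nonneg (fun g hg => by
        simp only [mem_filter] at hg
        simpa using hg.2.le) fun _ _ _ => by positivity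
    have h4 : ∑ g ∈ S.filter (fun g => ¬ l g < R), t ^ l g ≤ θ * ∑ g ∈ S, t ^ l g := by
      have hsp : ∀ g, ∃ p : G × G, R ≤ l g → g = p.1 * p.2 ∧ l p.1 = R ∧ l p.2 + R = l g := by
        intro g
        by_cases hg : R ≤ l g
        · obtain ⟨a, b, h⟩ := hl.split g R hg
          exact ⟨(a, b), fun _ => h⟩
        · exact ⟨(1, 1), fun h => absurd h hg⟩
      choose π hπ using hsp
      have h5 : θ * ∑ g ∈ S, t ^ l g =
          ∑ p ∈ (hl.sphere_finite R).toFinset ×ˢ S, t ^ (l p.2 + R) := by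
        rw [sum_product]
        simp only [sum_const, nsmul_eq_mul, pow_add]
        rw [← sum_mul, hθ]; ring
      rw [h5]
      have h6 : ∑ g ∈ S.filter (fun g => ¬ l g < R), t ^ l g =
          ∑ p ∈ (S.filter (fun g => ¬ l g < R)).image π, t ^ (l p.2 + R) := by
        rw [sum_image]
        · refine sum_congr rfl fun g hg => ?_
          rw [(hπ g (by simpa using (mem_filter.1 hg).2)).2.2]
        · intro g hg g' hg' he
          rw [(hπ g (by simpa using (mem_filter.1 (mem_coe.1 hg)).2)).1,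
            (hπ g' (by simpa using (mem_filter.1 (mem_coe.1 hg')).2)).1, he]
      rw [h6]
      refine sum_le_sum_of_subset_of_nonneg ?_ fun _ _ _ => by positivity
      intro p hp
      obtain ⟨g, hg, rfl⟩ := mem_image.1 hp
      have h7 := hπ g (by simpa using (mem_filter.1 hg).2)
      have h8 : l g ≤ N := by simpa [hS] using (mem_filter.1 hg).1
      simp only [mem_product, Set.Finite.mem_toFinset, Set.mem_setOf_eq, hS]
      exact ⟨h7.2.1, by omega⟩
    rw [sum_filter_add_sum_filter_not S (fun g => l g < R)]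
    calc ∑ g ∈ S, t ^ l g = _ + _ := (sum_filter_add_sum_filter_not S (fun g => l g < R) _).symm
      _ ≤ _ := add_le_add h3 h4
  refine h1.trans ?_
  rw [le_div_iff₀ (by linarith)]
  linarith

lemma small_sphere {l : G → ℕ} (hl : IsLength l) {t : ℝ} (ht : 0 ≤ t) {M : ℕ}
    (h : ∀ F : Finset G, ∑ g ∈ F, t ^ l g ≤ M) :
    ∃ R ≤ 2 * M + 1, ((hl.sphere_finite R).toFinset.card : ℝ) * t ^ R ≤ 1 / 2 := by
  classical
  by_contra hcon
  push Not at hcon
  have h1 := h (hl.finite (2 * M + 1)).toFinset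
  rw [← sum_fiberwise_of_maps_to (t := range (2 * M + 2)) (g := l)
    (fun g hg => by simp at hg ⊢; omega)] at h1
  have h2 : ∑ R ∈ range (2 * M + 2), (1 / 2 : ℝ) ≤ ∑ R ∈ range (2 * M + 2),
      ∑ g ∈ (hl.finite (2 * M + 1)).toFinset.filter (fun g => l g = R), t ^ l g := by
    refine sum_le_sum fun R hR => ?_
    have hR' : R ≤ 2 * M + 1 := by simp at hR; omega
    have h3 : (hl.finite (2 * M + 1)).toFinset.filter (fun g => l g = R) =
        (hl.sphere_finite R).toFinset := by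
      ext g; simp; omega
    rw [h3, sum_congr rfl (g := fun _ => t ^ R) (fun g hg => by simp at hg; rw [hg])]
    simpa using (hcon R hR').le
  simp at h2
  linarith

theorem growth_contra [Infinite G] {l : G → ℕ} (hl : IsLength l) (K D : Set G) {X : Type}
    [Fintype X] (ι : G → X × G) (hι : Function.Injective ι) (c : ℕ) (hιK : ∀ g, (ι g).2 ∈ K)
    (hιl : ∀ g, l (ι g).2 ≤ l g + c) (k : G) (hD : D.Nonempty)
    (hk : ∀ w ∈ D, ∀ h ∈ K, w * h * k ∈ D)
    (hinj : ∀ w ∈ D, ∀ h ∈ K, ∀ w' ∈ D, ∀ h' ∈ K, w * h = w' * h' → h = h') : False := by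
  classical
  -- the a priori bound
  have key : ∀ t : ℝ, 0 < t → t ≤ 1 → (∃ M : ℝ, ∀ F : Finset G, ∑ g ∈ F, t ^ l g ≤ M) →
      ∀ F : Finset G, t ^ (c + l k) * ∑ g ∈ F, t ^ l g ≤ Fintype.card X := by
    rintro t ht ht1 ⟨M, hM⟩ F
    have hsum : Summable fun g => t ^ l g := summable_of_sum_le (fun _ => by positivity) hM
    have hsD : Summable fun w : D => t ^ l w := hsum.subtype D
    have hpos : 0 < ∑' w : D, t ^ l w := by
      obtain ⟨w, hw⟩ := hD
      exact hsD.tsum_pos (fun _ => by positivity) ⟨w, hw⟩ (by positivity)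
    have hK : ∀ E : Finset G, (∀ h ∈ E, h ∈ K) → t ^ l k * ∑ h ∈ E, t ^ l h ≤ 1 := by
      intro E hE
      have h1 : (t ^ l k * ∑ h ∈ E, t ^ l h) * ∑' w : D, t ^ l w ≤ ∑' w : D, t ^ l w := by
        rw [← tsum_mul_left]
        refine (hsD.mul_left _).tsum_le_of_sum_le fun s => ?_
        let μ : D × E → D := fun p => ⟨p.1 * p.2 * k, hk _ p.1.2 _ (hE _ p.2.2)⟩
        have hμ : Function.Injective μ := by
          rintro ⟨w, h⟩ ⟨w', h'⟩ he
          have h2 : (w : G) * h = w' * h' := by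
            have := congrArg Subtype.val he
            simpa [μ] using this
          have h3 := hinj _ w.2 _ (hE _ h.2) _ w'.2 _ (hE _ h'.2) h2
          rw [h3] at h2
          exact Prod.ext (Subtype.ext (mul_right_cancel h2)) (Subtype.ext h3)
        calc ∑ w ∈ s, (t ^ l k * ∑ h ∈ E, t ^ l h) * t ^ l w
            = ∑ p ∈ s ×ˢ (univ : Finset E), t ^ (l p.1 + l p.2 + l k) := by
              rw [sum_product]
              refine sum_congr rfl fun w _ => ?_
              rw [← sum_coe_sort E, mul_sum, sum_mul]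
              refine sum_congr rfl fun h _ => ?_
              simp only [pow_add]; ring
          _ ≤ ∑ p ∈ s ×ˢ (univ : Finset E), t ^ l (μ p) := by
              refine sum_le_sum fun p _ => pow_le_pow_of_le_one ht.le ht1 ?_
              exact (hl.mul_le _ _).trans (Nat.add_le_add_right (hl.mul_le _ _) _)
          _ = ∑ w ∈ (s ×ˢ (univ : Finset E)).image μ, t ^ l w := by
              rw [sum_image fun a _ b _ h => hμ h]
          _ ≤ _ := hsD.sum_le_tsum _ fun _ _ => by positivity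
      exact (mul_le_iff_le_one_left hpos).1 h1
    have h1 : t ^ c * ∑ g ∈ F, t ^ l g ≤
        Fintype.card X * ∑ h ∈ F.image (fun g => (ι g).2), t ^ l h := by
      calc t ^ c * ∑ g ∈ F, t ^ l g = ∑ g ∈ F, t ^ (l g + c) := by
            rw [mul_sum]; refine sum_congr rfl fun g _ => by rw [pow_add]; ring
        _ ≤ ∑ g ∈ F, t ^ l (ι g).2 :=
            sum_le_sum fun g _ => pow_le_pow_of_le_one ht.le ht1 (hιl g)
        _ = ∑ p ∈ F.image ι, t ^ l p.2 := by rw [sum_image fun a _ b _ h => hι h]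
        _ ≤ ∑ p ∈ (univ : Finset X) ×ˢ F.image (fun g => (ι g).2), t ^ l p.2 := by
            refine sum_le_sum_of_subset_of_nonneg ?_ fun _ _ _ => by positivity
            intro p hp
            obtain ⟨g, hg, rfl⟩ := mem_image.1 hp
            simp only [mem_product, mem_univ, true_and]
            exact mem_image.2 ⟨g, hg, rfl⟩
        _ = _ := by rw [sum_product]; simp
    have h2 := hK (F.image (fun g => (ι g).2)) (by
      intro h hh
      obtain ⟨g, -, rfl⟩ := mem_image.1 hh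
      exact hιK g)
    calc t ^ (c + l k) * ∑ g ∈ F, t ^ l g = t ^ l k * (t ^ c * ∑ g ∈ F, t ^ l g) := by
          rw [pow_add]; ring
      _ ≤ t ^ l k * (Fintype.card X * ∑ h ∈ F.image (fun g => (ι g).2), t ^ l h) := by gcongr
      _ = Fintype.card X * (t ^ l k * ∑ h ∈ F.image (fun g => (ι g).2), t ^ l h) := by ring
      _ ≤ Fintype.card X * 1 := by gcongr
      _ = _ := mul_one _
  set σ : ℝ := ((hl.sphere_finite 1).toFinset.card : ℝ) with hσ
  have hσ0 : 0 ≤ σ := by positivity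
  set t₁ : ℝ := 1 / (σ + 1) with ht₁
  have ht₁0 : 0 < t₁ := by positivity
  have ht₁1 : t₁ ≤ 1 := by rw [ht₁, div_le_one (by positivity)]; linarith
  obtain ⟨M, hM⟩ := exists_nat_ge ((Fintype.card X : ℝ) / t₁ ^ (c + l k))
  have key2 : ∀ t : ℝ, t₁ ≤ t → t ≤ 1 → (∃ M : ℝ, ∀ F : Finset G, ∑ g ∈ F, t ^ l g ≤ M) →
      ∀ F : Finset G, ∑ g ∈ F, t ^ l g ≤ M := by
    intro t h1 h2 h3 F
    have h4 := key t (ht₁0.trans_le h1) h2 h3 F
    refine le_trans ?_ hM
    rw [le_div_iff₀ (by positivity)]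
    have h5 : 0 ≤ ∑ g ∈ F, t ^ l g := sum_nonneg fun _ _ => by have := ht₁0.trans_le h1; positivity
    calc (∑ g ∈ F, t ^ l g) * t₁ ^ (c + l k) ≤ (∑ g ∈ F, t ^ l g) * t ^ (c + l k) := by gcongr
      _ ≤ _ := by rw [mul_comm]; exact h4
  obtain ⟨ρ, hρ1, hρ⟩ : ∃ ρ : ℝ, 1 < ρ ∧ ρ ^ (2 * M + 1) < 2 := by
    have h1 : ContinuousAt (fun x : ℝ => x ^ (2 * M + 1)) 1 := by fun_prop
    have h2 : ∀ᶠ x in nhds (1 : ℝ), x ^ (2 * M + 1) < 2 :=
      h1.eventually_lt_const (by norm_num)
    obtain ⟨x, hx1, hx2⟩ := ((h2.filter_mono (nhdsWithin_le_nhds (s := Set.Ioi 1))).and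
      self_mem_nhdsWithin).exists
    exact ⟨x, hx2, hx1⟩
  have step : ∀ n : ℕ, ∀ F : Finset G, ∑ g ∈ F, (min 1 (ρ ^ n * t₁)) ^ l g ≤ M := by
    intro n
    induction n with
    | zero =>
      simp only [pow_zero, one_mul, min_eq_right ht₁1]
      refine key2 t₁ le_rfl ht₁1 (bounded_of_sphere hl ht₁0.le (R := 1) ?_)
      rw [pow_one, ← hσ, ht₁, mul_one_div, div_lt_one (by positivity)]; linarith
    | succ n ih =>
      have hρn : 1 ≤ ρ ^ n := one_le_pow₀ hρ1.le
      have hρn' : 1 ≤ ρ ^ (n + 1) := one_le_pow₀ hρ1.le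
      set t := min 1 (ρ ^ n * t₁) with ht
      have ht0 : 0 < t := lt_min one_pos (by positivity)
      obtain ⟨R, hR, hR2⟩ := small_sphere hl ht0.le ih
      refine key2 _ (le_min ht₁1 (by nlinarith)) (min_le_left _ _) ?_
      refine bounded_of_sphere hl (le_min zero_le_one (by positivity)) (R := R) ?_
      have h1 : min 1 (ρ ^ (n + 1) * t₁) ≤ ρ * t := by
        rw [ht, mul_min_of_nonneg _ _ (by linarith)]
        refine min_le_min (by linarith) (le_of_eq (by ring))
      have h2 : ρ ^ R < 2 := (pow_le_pow_right₀ hρ1.le hR).trans_lt hρ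
      have h0 : 0 ≤ min 1 (ρ ^ (n + 1) * t₁) := le_min zero_le_one (by positivity)
      calc _ ≤ ((hl.sphere_finite R).toFinset.card : ℝ) * (ρ * t) ^ R := by gcongr
        _ = ρ ^ R * (((hl.sphere_finite R).toFinset.card : ℝ) * t ^ R) := by rw [mul_pow]; ring
        _ ≤ ρ ^ R * (1 / 2) := by gcongr
        _ < 1 := by linarith
  obtain ⟨n, hn⟩ := pow_unbounded_of_one_lt (1 / t₁) hρ1
  have h1 : min 1 (ρ ^ n * t₁) = 1 := min_eq_left (by rw [div_lt_iff₀ ht₁0] at hn; exact hn.le)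
  obtain ⟨F, hF⟩ := Infinite.exists_subset_card_eq G (M + 1)
  have h2 := step n F
  rw [h1] at h2
  simp [hF] at h2
  linarith

/-- word length with respect to a finite set -/
noncomputable def len (U : Finset G) (g : G) : ℕ :=
  sInf {n | ∃ L : List G, (∀ s ∈ L, s ∈ U) ∧ L.length = n ∧ L.prod = g}

lemma len_le {U : Finset G} (L : List G) (hL : ∀ s ∈ L, s ∈ U) : len U L.prod ≤ L.length :=
  Nat.sInf_le ⟨L, hL, rfl, rfl⟩

lemma exists_word {U : Finset G} (hU : Subgroup.closure (U : Set G) = ⊤)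
    (hs : ∀ s ∈ U, s⁻¹ ∈ U) (g : G) : ∃ L : List G, (∀ s ∈ L, s ∈ U) ∧ L.prod = g := by
  have h1 : g ∈ Submonoid.closure ((U : Set G) ∪ (U : Set G)⁻¹) := by
    rw [← Subgroup.closure_toSubmonoid, hU]; trivial
  obtain ⟨L, hL, rfl⟩ := Submonoid.exists_list_of_mem_closure h1
  refine ⟨L, fun s hsL => ?_, rfl⟩
  rcases hL s hsL with h | h
  · exact h
  · simpa using hs _ h

lemma exists_geodesic {U : Finset G} (hU : Subgroup.closure (U : Set G) = ⊤)
    (hs : ∀ s ∈ U, s⁻¹ ∈ U) (g : G) :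
    ∃ L : List G, (∀ s ∈ L, s ∈ U) ∧ L.length = len U g ∧ L.prod = g := by
  obtain ⟨L, h1, h2⟩ := exists_word hU hs g
  exact Nat.sInf_mem (s := {n | ∃ L : List G, (∀ s ∈ L, s ∈ U) ∧ L.length = n ∧ L.prod = g})
    ⟨L.length, L, h1, rfl, h2⟩

lemma isLength_len {U : Finset G} (hU : Subgroup.closure (U : Set G) = ⊤)
    (hs : ∀ s ∈ U, s⁻¹ ∈ U) : IsLength (len U) := by
  have hmul : ∀ a b, len U (a * b) ≤ len U a + len U b := by
    intro a b
    obtain ⟨L, h1, h2, h3⟩ := exists_geodesic hU hs a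
    obtain ⟨L', h1', h2', h3'⟩ := exists_geodesic hU hs b
    have := len_le (U := U) (L ++ L') (by
      intro s hs; rcases List.mem_append.1 hs with h | h
      exacts [h1 s h, h1' s h])
    rwa [List.prod_append, List.length_append, h2, h2', h3, h3'] at this
  refine ⟨hmul, ?_, ?_⟩
  · intro g R hR
    obtain ⟨L, h1, h2, h3⟩ := exists_geodesic hU hs g
    have e : g = (L.take R).prod * (L.drop R).prod := by
      rw [← List.prod_append, List.take_append_drop, h3]
    have a1 := len_le (U := U) (L.take R) fun s hs => h1 s (List.mem_of_mem_take hs)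
    have a2 := len_le (U := U) (L.drop R) fun s hs => h1 s (List.mem_of_mem_drop hs)
    have a3 := hmul (L.take R).prod (L.drop R).prod
    rw [← e] at a3
    rw [List.length_take] at a1
    rw [List.length_drop] at a2
    exact ⟨_, _, e, by omega, by omega⟩
  · intro n
    have h1 : {L : List U | L.length ≤ n}.Finite := List.finite_length_le _ n
    refine (h1.image fun L => (L.map Subtype.val).prod).subset ?_
    intro g hg
    obtain ⟨L, h1, h2, h3⟩ := exists_geodesic hU hs g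
    refine ⟨L.attachWith _ h1, ?_, ?_⟩
    · simpa [h2] using hg
    · simp [h3]

lemma len_map_le {U : Finset G} (hU : Subgroup.closure (U : Set G) = ⊤)
    (hs : ∀ s ∈ U, s⁻¹ ∈ U) (f : G → G) (h1 : f 1 = 1)
    (hf : ∀ s ∈ U, ∀ g, ∃ s' ∈ U, f (s * g) = s' * f g) (g : G) : len U (f g) ≤ len U g := by
  have key : ∀ L : List G, (∀ s ∈ L, s ∈ U) →
      ∃ L' : List G, (∀ s ∈ L', s ∈ U) ∧ L'.length = L.length ∧ L'.prod = f L.prod := by
    intro L
    induction L with
    | nil => intro _; exact ⟨[], by simp, rfl, by simp [h1]⟩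
    | cons s L ih =>
      intro hL
      obtain ⟨L', a1, a2, a3⟩ := ih fun x hx => hL x (List.mem_cons_of_mem _ hx)
      obtain ⟨s', b1, b2⟩ := hf s (hL s List.mem_cons_self) L.prod
      refine ⟨s' :: L', ?_, by simp [a2], by simp [a3, b2]⟩
      intro x hx
      rcases List.mem_cons.1 hx with rfl | hx
      exacts [b1, a1 x hx]
  obtain ⟨L, a1, a2, a3⟩ := exists_geodesic hU hs g
  obtain ⟨L', b1, b2, b3⟩ := key L a1
  have := len_le L' b1
  rwa [b3, a3, b2, a2] at this

end Pool.Agent.H958Z.BiRev
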