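import Pool.Agent.H958Z.BiRev.Free
import Pool.Agent.H958Z.BiRev.Growth

/-!
Minimal vertex cuts in Cayley graphs of free groups.
-/

namespace Pool.Agent.H958Z.BiRev

open Filter
open FreeGroup hiding map_mul map_one norm map

section General
variable {G : Type} [Group G]

/-- `χ` is constant along the edges of the Cayley graph that avoid `Z`. -/
def Sep (U : Finset G) (χ : G → ZMod 2) (Z : Finset G) : Prop :=
  ∀ s ∈ U, ∀ g, g ∉ Z → s * g ∉ Z → χ (s * g) = χ g

/-- `χ` takes both values infinitely often. -/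
def Nontriv (χ : G → ZMod 2) : Prop := ∀ a, ¬ ∀ᶠ g in cofinite, χ g = a

/-- the least size of a vertex cut -/
noncomputable def mcut (U : Finset G) : ℕ :=
  sInf {n | ∃ χ Z, Sep U χ Z ∧ Nontriv χ ∧ Z.card = n}

/-- vertex cuts of least size -/
def MinCut (U : Finset G) (χ : G → ZMod 2) (Z : Finset G) : Prop :=
  Sep U χ Z ∧ Nontriv χ ∧ Z.card = mcut U

lemma mcut_le {U : Finset G} {χ : G → ZMod 2} {Z : Finset G} (h1 : Sep U χ Z) (h2 : Nontriv χ) :
    mcut U ≤ Z.card := Nat.sInf_le ⟨χ, Z, h1, h2, rfl⟩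

lemma inv_of_gens {U : Finset G} (hU : Subgroup.closure (U : Set G) = ⊤) (hs : ∀ s ∈ U, s⁻¹ ∈ U)
    {A : Type} (ψ : G → A) (h : ∀ s ∈ U, ∀ g, ψ (s * g) = ψ g) (w g : G) : ψ (w * g) = ψ g := by
  obtain ⟨L, hL, rfl⟩ := exists_word hU hs w
  induction L with
  | nil => simp
  | cons s L ih =>
    rw [List.prod_cons, mul_assoc, h s (hL s List.mem_cons_self),
      ih fun x hx => hL x (List.mem_cons_of_mem _ hx)]

lemma sep_path {U : Finset G} (hU : Subgroup.closure (U : Set G) = ⊤) (hs : ∀ s ∈ U, s⁻¹ ∈ U)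
    (w : G) : ∃ W : Finset G, ∀ χ Z, Sep U χ Z → ∀ g, (∀ v ∈ W, v * g ∉ Z) → χ (w * g) = χ g := by
  classical
  obtain ⟨L, hL, rfl⟩ := exists_word hU hs w
  induction L with
  | nil => exact ⟨∅, by simp⟩
  | cons s L ih =>
    obtain ⟨W, hW⟩ := ih fun x hx => hL x (List.mem_cons_of_mem _ hx)
    refine ⟨insert L.prod (insert (s * L.prod) W), fun χ Z h g hg => ?_⟩
    rw [List.prod_cons, mul_assoc, h s (hL s List.mem_cons_self) _ (hg _ (by simp))
      (by rw [← mul_assoc]; exact hg _ (by simp)), hW χ Z h g fun v hv => hg v (by simp [hv])]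

lemma almost_inv {U : Finset G} (hU : Subgroup.closure (U : Set G) = ⊤) (hs : ∀ s ∈ U, s⁻¹ ∈ U)
    {χ : G → ZMod 2} {Z : Finset G} (h : Sep U χ Z) (w : G) :
    ∀ᶠ g in cofinite, χ (w * g) = χ g := by
  obtain ⟨W, hW⟩ := sep_path hU hs w
  have : ∀ᶠ g in cofinite, ∀ v ∈ W, v * g ∉ Z := by
    rw [eventually_all_finset]
    intro v _
    exact (mul_right_injective v).tendsto_cofinite.eventually Z.eventually_cofinite_notMem
  exact this.mono fun g hg => hW χ Z h g hg

lemma MinCut.translate [DecidableEq G] {U : Finset G} {χ : G → ZMod 2} {Z : Finset G}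
    (h : MinCut U χ Z) (k : G) : MinCut U (fun g => χ (g * k⁻¹)) (Z.image (· * k)) := by
  have hm : ∀ g, g ∈ Z.image (· * k) ↔ g * k⁻¹ ∈ Z := by
    intro g
    simp only [Finset.mem_image]
    constructor
    · rintro ⟨z, hz, rfl⟩; simpa using hz
    · intro hz; exact ⟨_, hz, by simp⟩
  refine ⟨?_, ?_, ?_⟩
  · intro s hs g h1 h2
    rw [hm] at h1 h2
    simp only [mul_assoc] at h2 ⊢
    exact h.1 s hs _ h1 h2
  · intro a ha
    refine h.2.1 a ?_
    have := (mul_left_injective k).tendsto_cofinite.eventually ha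
    simpa using this
  · rw [Finset.card_image_of_injective _ (mul_left_injective k), h.2.2]

lemma nonempty_of_sep {U : Finset G} (hU : Subgroup.closure (U : Set G) = ⊤)
    (hs : ∀ s ∈ U, s⁻¹ ∈ U) {χ : G → ZMod 2} {Z : Finset G} (h : Sep U χ Z) (h2 : Nontriv χ) :
    Z.Nonempty := by
  rw [Finset.nonempty_iff_ne_empty]
  rintro rfl
  refine h2 (χ 1) (Eventually.of_forall fun g => ?_)
  simpa using inv_of_gens hU hs χ (fun s hs g => h s hs g (by simp) (by simp)) g 1

lemma finite_germs {U : Finset G} (hU : Subgroup.closure (U : Set G) = ⊤)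
    (hs : ∀ s ∈ U, s⁻¹ ∈ U) {Z : Finset G} (hZ : Z.Nonempty) :
    {γ : Germ (cofinite : Filter G) (ZMod 2) | ∃ χ : G → ZMod 2, Sep U χ Z ∧ γ = χ}.Finite := by
  classical
  let N : Finset G := (U ×ˢ Z).image fun p => p.1 * p.2
  have agree : ∀ χ χ' : G → ZMod 2, Sep U χ Z → Sep U χ' Z → (∀ g ∈ N, χ g = χ' g) →
      ∀ g ∉ Z, χ g = χ' g := by
    intro χ χ' h h' hN g hg
    have z1 : ∀ x : ZMod 2, x + x = 0 := by decide
    have z2 : ∀ x y : ZMod 2, x + y = 0 → x = y := by decide
    have h1 := inv_of_gens hU hs (fun g => if g ∈ Z then 0 else χ g + χ' g) (by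
      intro s hsU g
      by_cases a1 : g ∈ Z <;> by_cases a2 : s * g ∈ Z
      · simp [a1, a2]
      · have : s * g ∈ N := Finset.mem_image.2 ⟨(s, g), Finset.mem_product.2 ⟨hsU, a1⟩, rfl⟩
        simp [a1, a2, hN _ this, z1]
      · have : g ∈ N := Finset.mem_image.2
          ⟨(s⁻¹, s * g), Finset.mem_product.2 ⟨hs s hsU, a2⟩, by simp⟩
        simp [a1, a2, hN _ this, z1]
      · simp [a1, a2, h s hsU g a1 a2, h' s hsU g a1 a2])
    obtain ⟨z, hz⟩ := hZ
    have h2 := h1 (g * z⁻¹) z
    simp only [inv_mul_cancel_right, hg, hz, if_true, if_false] at h2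
    exact z2 _ _ h2
  rw [← Set.finite_coe_iff]
  have hch : ∀ γ : {γ : Germ (cofinite : Filter G) (ZMod 2) |
      ∃ χ : G → ZMod 2, Sep U χ Z ∧ γ = χ}, ∃ χ : G → ZMod 2, Sep U χ Z ∧ γ.1 = χ := fun γ => γ.2
  choose r hr hr' using hch
  refine Finite.of_injective (fun γ => fun g : N => r γ g) ?_
  intro γ γ' he
  apply Subtype.ext
  rw [hr', hr', Germ.coe_eq]
  exact Z.eventually_cofinite_notMem.mono
    (agree _ _ (hr γ) (hr γ') fun g hg => congrFun he ⟨g, hg⟩)

lemma eventually_const {G : Type} [Group G] [IsMulTorsionFree G] {χ : G → ZMod 2} {h : G}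
    (hh : h ≠ 1) (hχ : ∀ᶠ g in cofinite, χ (g * h) = χ g) (g : G) :
    ∃ a, ∀ᶠ n : ℕ in atTop, χ (g * h ^ n) = a := by
  have hinj : Function.Injective fun n : ℕ => g * h ^ n := fun a b e =>
    IsMulTorsionFree.pow_right_injective hh (mul_left_cancel e)
  have h1 := hinj.tendsto_cofinite.eventually hχ
  rw [Nat.cofinite_eq_atTop, eventually_atTop] at h1
  obtain ⟨N, hN⟩ := h1
  refine ⟨χ (g * h ^ N), eventually_atTop.2 ⟨N, fun n hn => ?_⟩⟩
  induction n, hn using Nat.le_induction with
  | base => rfl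
  | succ n hn ih => rw [pow_succ, ← mul_assoc, hN n hn, ih]

/-- A non-trivial cut is not almost invariant under a non-trivial right translation. -/
lemma stab_trivial {G : Type} [Group G] [IsMulTorsionFree G] (hnc : ∃ a b : G, ¬ Commute a b)
    {χ : G → ZMod 2} (hl : ∀ w, ∀ᶠ g in cofinite, χ (w * g) = χ g) (hn : Nontriv χ) {h : G}
    (hχ : ∀ᶠ g in cofinite, χ (g * h) = χ g) : h = 1 := by
  classical
  by_contra hh
  have hχ' : ∀ᶠ g in cofinite, χ (g * h⁻¹) = χ g := by
    have := (mul_left_injective h⁻¹).tendsto_cofinite.eventually hχ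
    refine this.mono fun g hg => ?_
    simpa using hg.symm
  have common : ∀ {h : G}, h ≠ 1 → (∀ᶠ g in cofinite, χ (g * h) = χ g) →
      ∃ a, ∀ g, ∀ᶠ n : ℕ in atTop, χ (g * h ^ n) = a := by
    intro h hh hχ
    obtain ⟨a, ha⟩ := eventually_const hh hχ 1
    refine ⟨a, fun g => ?_⟩
    have h1 := (IsMulTorsionFree.pow_right_injective hh).tendsto_cofinite.eventually (hl g)
    rw [Nat.cofinite_eq_atTop] at h1
    filter_upwards [ha, h1] with n h2 h3
    rw [h3, ← h2, one_mul]
  obtain ⟨a, ha⟩ := common hh hχ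
  obtain ⟨a', ha'⟩ := common (inv_ne_one.2 hh) hχ'
  let E : Set G := {g | ¬ χ (g * h) = χ g}
  have hE : E.Finite := hχ
  have hfree : ∀ g, (∀ n : ℤ, g * h ^ n ∉ E) → χ g = a ∧ χ g = a' := by
    intro g hg
    have h1 : ∀ n : ℤ, χ (g * h ^ n) = χ g := by
      intro n
      induction n using Int.induction_on with
      | zero => simp
      | succ n ih =>
        have := hg n
        simp only [E, Set.mem_ofPred_eq, not_not] at this
        rw [zpow_add_one, ← mul_assoc, this, ih]
      | pred n ih =>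
        have := hg (-n - 1)
        simp only [E, Set.mem_ofPred_eq, not_not] at this
        rw [← this, mul_assoc, ← zpow_add_one, sub_add_cancel, ih]
    obtain ⟨n, hn⟩ := (ha g).exists
    obtain ⟨n', hn'⟩ := (ha' g).exists
    refine ⟨?_, ?_⟩
    · rw [← hn, ← zpow_natCast, h1]
    · rw [← hn', inv_pow, ← zpow_natCast, ← zpow_neg, h1]
  have haa : a = a' := by
    by_contra hne
    have h1 : ∀ g, ∃ n : ℤ, g * h ^ n ∈ E := by
      intro g
      by_contra hc
      push Not at hc
      exact hne ((hfree g hc).1.symm.trans (hfree g hc).2)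
    have h2 : Finite (G ⧸ Subgroup.zpowers h) := by
      have := hE.to_subtype
      refine Finite.of_surjective (fun e : E => ((e : G) : G ⧸ Subgroup.zpowers h)) ?_
      intro y
      induction y using QuotientGroup.induction_on with
      | H g =>
        obtain ⟨n, hn⟩ := h1 g
        exact ⟨⟨_, hn⟩, QuotientGroup.mk_mul_of_mem g ⟨n, rfl⟩⟩
    obtain ⟨x, y, hxy⟩ := hnc
    refine hxy (comm_of_finiteIndex (Subgroup.zpowers h) Subgroup.index_ne_zero_of_finite ?_ x y)
    rintro _ ⟨i, rfl⟩ _ ⟨j, rfl⟩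
    exact Commute.zpow_zpow_self h i j
  subst haa
  refine hn a ?_
  have h1 : ∀ y : G, {g | χ g ≠ a ∧ ∃ n : ℤ, g = y * h ^ n}.Finite := by
    intro y
    have a1 := ha y
    have a2 := ha' y
    rw [← Nat.cofinite_eq_atTop] at a1 a2
    refine ((Set.Finite.image (fun n : ℕ => y * h ^ n) a1).union
      (Set.Finite.image (fun n : ℕ => y * h⁻¹ ^ n) a2)).subset ?_
    rintro g ⟨hg, n, rfl⟩
    rcases Int.eq_nat_or_neg n with ⟨n, rfl | rfl⟩
    · left; exact ⟨n, by simpa using hg, by simp⟩
    · right; exact ⟨n, by simpa using hg, by simp⟩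
  refine (hE.biUnion fun y _ => h1 y).subset ?_
  intro g hg
  have hg' : χ g ≠ a := hg
  by_cases hc : ∀ n : ℤ, g * h ^ n ∉ E
  · exact absurd (hfree g hc).1 hg'
  · push Not at hc
    obtain ⟨n, hn⟩ := hc
    exact Set.mem_biUnion hn ⟨hg', -n, by simp⟩

end General

variable {B : Type}

lemma exists_cut [Finite B] [Nonempty B] (U : Finset (FreeGroup B)) :
    ∃ χ Z, MinCut U χ Z := by
  classical
  obtain ⟨b₀⟩ := ‹Nonempty B›
  obtain ⟨χ, h1, h2⟩ := exists_integral fun b (g : FreeGroup B) =>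
    if b = b₀ ∧ g = 1 then (1 : ZMod 2) else 0
  have hb : (of b₀ : FreeGroup B) ≠ 1 := of_ne_one b₀
  have hsep : Sep U χ (ball_finite (U.sup FreeGroup.norm)).toFinset := by
    intro s hs g hg _
    refine walk χ {g | g ≠ 1} ?_ s g ?_
    · intro b g hg _
      rw [h2, if_neg (fun h => hg h.2), add_zero]
    · intro w hw hwg
      apply hg
      have : g = w⁻¹ := eq_inv_of_mul_eq_one_right hwg
      simp only [Set.Finite.mem_toFinset, Set.mem_ofPred_eq, this, norm_inv_eq]
      exact hw.trans (Finset.le_sup (f := FreeGroup.norm) hs)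
  have hpos : ∀ n : ℕ, χ (of b₀ ^ (n + 1)) = 1 := by
    intro n
    induction n with
    | zero => simpa [h1] using h2 b₀ 1
    | succ n ih => rw [pow_succ', h2, ih, if_neg (by simp [hb]), add_zero]
  have hneg : ∀ n : ℕ, χ ((of b₀)⁻¹ ^ n) = 0 := by
    intro n
    induction n with
    | zero => simpa using h1
    | succ n ih =>
      have := h2 b₀ ((of b₀)⁻¹ ^ (n + 1))
      rw [pow_succ', mul_inv_cancel_left, ih, if_neg (by
        rw [← pow_succ']; simp [hb]), add_zero] at this
      rw [pow_succ']; exact this.symm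
  have hnt : Nontriv χ := by
    intro a ha
    have i1 : Function.Injective fun n : ℕ => (of b₀ : FreeGroup B) ^ (n + 1) := fun x y e =>
      Nat.succ_injective (IsMulTorsionFree.pow_right_injective hb e)
    obtain ⟨n, hn⟩ := (i1.tendsto_cofinite.eventually ha).exists
    obtain ⟨n', hn'⟩ := ((IsMulTorsionFree.pow_right_injective
      (inv_ne_one.2 hb)).tendsto_cofinite.eventually ha).exists
    rw [hpos] at hn
    rw [hneg, ← hn] at hn'
    exact absurd hn' (by decide)
  obtain ⟨χ', Z', h⟩ := Nat.sInf_mem (s := {n | ∃ χ Z, Sep U χ Z ∧ Nontriv χ ∧ Z.card = n})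
    ⟨_, χ, _, hsep, hnt, rfl⟩
  exact ⟨χ', Z', h⟩

lemma mincut_bounded [Finite B] [DecidableEq B] {U : Finset (FreeGroup B)}
    (hU : Subgroup.closure (U : Set (FreeGroup B)) = ⊤) (hs : ∀ s ∈ U, s⁻¹ ∈ U) :
    ∃ R : ℕ, ∀ χ Z, MinCut U χ Z → 1 ∈ Z → ∀ z ∈ Z, z.norm ≤ R := by
  classical
  have := Fintype.ofFinite B
  choose W hW using fun b : B => sep_path hU hs (of b)
  set L₁ := (Finset.univ.biUnion W).sup FreeGroup.norm with hL₁
  set L₂ := U.sup FreeGroup.norm with hL₂
  have hW1 : ∀ b, ∀ v ∈ W b, v.norm ≤ L₁ := fun b v hv =>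
    Finset.le_sup (f := FreeGroup.norm) (Finset.mem_biUnion.2 ⟨b, Finset.mem_univ _, hv⟩)
  have hU2 : ∀ s ∈ U, s.norm ≤ L₂ := fun s hs => Finset.le_sup (f := FreeGroup.norm) hs
  have tri : ∀ w g : FreeGroup B, g.norm ≤ w.norm + (w * g).norm := by
    intro w g
    have := norm_mul_le w⁻¹ (w * g)
    rwa [inv_mul_cancel_left, norm_inv_eq] at this
  set L := 2 * L₁ + 2 * L₂ with hL
  refine ⟨mcut U * L, fun χ Z hZ h1 z hz => ?_⟩
  by_contra hbig
  push Not at hbig
  have split : ∀ r, r < z.norm → ∃ y ∈ Z, r < y.norm ∧ y.norm ≤ r + L := by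
    intro r hr
    by_contra hno
    push Not at hno
    set ρ := r + L₁ + 2 * L₂ with hρ
    obtain ⟨χ₁, -, h2⟩ := exists_integral fun b (g : FreeGroup B) =>
      if g.norm ≤ ρ then χ (of b * g) + χ g else 0
    have hA : ∀ s ∈ U, ∀ g : FreeGroup B, g.norm + L₂ ≤ ρ →
        χ (s * g) + χ₁ (s * g) = χ g + χ₁ g := by
      intro s hsU g hg
      refine walk (fun g => χ g + χ₁ g) {g | g.norm ≤ ρ} ?_ s g ?_
      · intro b g hg _
        have hg' : g.norm ≤ ρ := hg
        simp only [h2, if_pos hg']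
        generalize χ (of b * g) = x; generalize χ g = y; generalize χ₁ g = w
        revert x y w; decide
      · intro w hw
        have := norm_mul_le w g
        have := hU2 s hsU
        show (w * g).norm ≤ ρ
        omega
    have hB : ∀ s ∈ U, ∀ g : FreeGroup B, ¬ g.norm + L₂ ≤ ρ → χ₁ (s * g) = χ₁ g := by
      intro s hsU g hg
      refine walk χ₁ {g | r + L₁ < g.norm} ?_ s g ?_
      · intro b g hg _
        have hg' : r + L₁ < g.norm := hg
        rw [h2]
        split_ifs with hle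
        · rw [hW b χ Z hZ.1 g]
          · generalize χ g = y; generalize χ₁ g = w
            revert y w; decide
          · intro v hv hvZ
            have a1 := hW1 b v hv
            have a2 := tri v g
            have a3 := norm_mul_le v g
            have a4 := hno _ hvZ (by omega)
            omega
        · simp
      · intro w hw
        have := tri w g
        have := hU2 s hsU
        show r + L₁ < (w * g).norm
        omega
    have s1 : Sep U χ₁ (Z.filter fun y => y.norm ≤ r) := by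
      intro s hsU g a1 a2
      by_cases hc : g.norm + L₂ ≤ ρ
      · have b0 := hU2 s hsU
        have b1 := norm_mul_le s g
        have b2 : g ∉ Z := fun h => by
          have := hno g h (by by_contra hh; exact a1 (Finset.mem_filter.2 ⟨h, by omega⟩))
          omega
        have b3 : s * g ∉ Z := fun h => by
          have := hno _ h (by by_contra hh; exact a2 (Finset.mem_filter.2 ⟨h, by omega⟩))
          omega
        have b4 := hA s hsU g hc
        rw [hZ.1 s hsU g b2 b3] at b4
        exact add_left_cancel b4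
      · exact hB s hsU g hc
    have s2 : Sep U (fun g => χ g + χ₁ g) (Z.filter fun y => ¬ y.norm ≤ r) := by
      intro s hsU g a1 a2
      by_cases hc : g.norm + L₂ ≤ ρ
      · exact hA s hsU g hc
      · have b0 := hU2 s hsU
        have b1 := tri s g
        have b2 : g ∉ Z := fun h => a1 (Finset.mem_filter.2 ⟨h, by omega⟩)
        have b3 : s * g ∉ Z := fun h => a2 (Finset.mem_filter.2 ⟨h, by omega⟩)
        simp only [hZ.1 s hsU g b2 b3, hB s hsU g hc]
    have c1 : ¬ Nontriv χ₁ := fun h => by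
      have a1 := mcut_le s1 h
      have a2 : (Z.filter fun y => y.norm ≤ r).card < Z.card :=
        Finset.card_lt_card (Finset.filter_ssubset.2 ⟨z, hz, by omega⟩)
      have := hZ.2.2
      omega
    have c2 : ¬ Nontriv fun g => χ g + χ₁ g := fun h => by
      have a1 := mcut_le s2 h
      have a2 : (Z.filter fun y => ¬ y.norm ≤ r).card < Z.card :=
        Finset.card_lt_card (Finset.filter_ssubset.2 ⟨1, h1, by simp⟩)
      have := hZ.2.2
      omega
    simp only [Nontriv, not_forall, not_not] at c1 c2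
    obtain ⟨a, ha⟩ := c1
    obtain ⟨a', ha'⟩ := c2
    refine hZ.2.1 (a + a') ?_
    filter_upwards [ha, ha'] with g e1 e2
    rw [← e1, ← e2]
    generalize χ g = y; generalize χ₁ g = w
    revert y w; decide
  have count : ∀ j ≤ mcut U, j + 1 ≤ (Z.filter fun y => y.norm ≤ j * L).card := by
    intro j
    induction j with
    | zero => intro _; exact Finset.card_pos.2 ⟨1, by simp [h1]⟩
    | succ j ih =>
      intro hj
      have a1 := ih (by omega)
      have a0 : j * L ≤ mcut U * L := Nat.mul_le_mul_right _ (by omega)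
      obtain ⟨y, hy, b1, b2⟩ := split (j * L) (by omega)
      have a2 : (Z.filter fun y => y.norm ≤ j * L) ⊂ (Z.filter fun y => y.norm ≤ (j + 1) * L) := by
        rw [Finset.ssubset_iff_of_subset]
        · exact ⟨y, Finset.mem_filter.2 ⟨hy, by rw [add_mul]; omega⟩,
            fun h => by have := (Finset.mem_filter.1 h).2; omega⟩
        · intro x hx
          rw [Finset.mem_filter] at hx ⊢
          exact ⟨hx.1, by rw [add_mul]; omega⟩
      have := Finset.card_lt_card a2
      omega
  have a1 := count _ le_rfl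
  have a2 := Finset.card_filter_le Z fun y => y.norm ≤ mcut U * L
  have := hZ.2.2
  omega

/-- the classes of the minimal cuts through a vertex -/
def classes {G : Type} [Group G] (U : Finset G) (u : G) :
    Set (Germ (cofinite : Filter G) (ZMod 2)) :=
  {γ | ∃ χ Z, MinCut U χ Z ∧ u ∈ Z ∧ γ = χ}

lemma classes_one_finite [Finite B] {U : Finset (FreeGroup B)}
    (hU : Subgroup.closure (U : Set (FreeGroup B)) = ⊤) (hs : ∀ s ∈ U, s⁻¹ ∈ U) :
    (classes U 1).Finite := by
  classical
  obtain ⟨R, hR⟩ := mincut_bounded hU hs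
  have h1 : {Z : Finset (FreeGroup B) | Z.Nonempty ∧ Z ⊆ (ball_finite R).toFinset}.Finite := by
    refine (ball_finite (B := B) R).toFinset.powerset.finite_toSet.subset ?_
    intro Z hZ
    simpa using hZ.2
  refine (h1.biUnion fun Z hZ => finite_germs hU hs hZ.1).subset ?_
  rintro γ ⟨χ, Z, h, h2, rfl⟩
  refine Set.mem_biUnion (x := Z) ⟨⟨1, h2⟩, fun z hz => ?_⟩ ⟨χ, h.1, rfl⟩
  simpa using hR χ Z h h2 z hz

end Pool.Agent.H958Z.BiRev
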