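import Mathlib

/-!
Invertible transducers (Mealy automata), the groups they generate, bireversibility.
-/

namespace Pool.Agent.H958Z.BiRev

/-- An invertible transducer with state set `Q` and alphabet `A`: a transition map `δ` and, for
every state, a permutation `out q` of the alphabet (the output map). -/
structure Transducer (Q A : Type) where
  /-- the transition map -/
  δ : Q → A → Q
  /-- the output map -/
  out : Q → Equiv.Perm A

namespace Transducer

variable {Q A : Type} (T : Transducer Q A)

/-- The action of a state on finite words: `q (a w) = out q a · (δ q a) w`. -/
def act : Q → List A → List A
  | _, [] => []
  | q, a :: w => T.out q a :: act (T.δ q a) w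

/-- The inverse of the action of a state on finite words. -/
def actInv : Q → List A → List A
  | _, [] => []
  | q, b :: w => (T.out q).symm b :: actInv (T.δ q ((T.out q).symm b)) w

/-- The permutation of the set of finite words defined by a state. -/
def perm (q : Q) : Equiv.Perm (List A) where
  toFun := T.act q
  invFun := T.actInv q
  left_inv w := by
    induction w generalizing q with
    | nil => rfl
    | cons a w ih => simp [act, actInv, ih]
  right_inv w := by
    induction w generalizing q with
    | nil => rfl
    | cons a w ih => simp [act, actInv, ih]

/-- The group generated by the states. -/
def group : Subgroup (Equiv.Perm (List A)) := Subgroup.closure (Set.range T.perm)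

/-- Bireversibility: for every letter `a` the map `q ↦ δ q a` is a permutation of the states, and
for every letter `b` the map `q ↦ δ q ((out q)⁻¹ b)` is a permutation of the states. -/
def Bireversible : Prop :=
  (∀ a : A, Function.Bijective fun q => T.δ q a) ∧
    ∀ b : A, Function.Bijective fun q => T.δ q ((T.out q).symm b)

end Transducer

end Pool.Agent.H958Z.BiRev
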