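import Pool.Agent.H958Z.BiRev.Free

/-!
A finitely generated subgroup of infinite index of a free group of finite rank has a ping-pong
partner.
-/

namespace Pool.Agent.H958Z.BiRev

open FreeGroup hiding map_mul map_one norm

variable {B : Type}

lemma exists_exits [Finite B] (K : Subgroup (FreeGroup B)) (hK : K.index = 0)
    (W : Set (FreeGroup B)) (hW : W.Finite) (h1 : (1 : FreeGroup B) ∈ W) :
    ∃ b p q, (∃ w ∈ W, w⁻¹ * p ∈ K) ∧ ¬ (∃ w ∈ W, w⁻¹ * (of b * p) ∈ K) ∧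
      ¬ (∃ w ∈ W, w⁻¹ * q ∈ K) ∧ (∃ w ∈ W, w⁻¹ * (of b * q) ∈ K) := by
  let F : Set (FreeGroup B ⧸ K) := (fun w : FreeGroup B => (w : FreeGroup B ⧸ K)) '' W
  have hF : F.Finite := hW.image _
  have hmem : ∀ g : FreeGroup B, (∃ w ∈ W, w⁻¹ * g ∈ K) ↔ (g : FreeGroup B ⧸ K) ∈ F := by
    intro g
    constructor
    · rintro ⟨w, hw, h⟩
      exact ⟨w, hw, QuotientGroup.eq.2 h⟩
    · rintro ⟨w, hw, h⟩
      exact ⟨w, hw, QuotientGroup.eq.1 h⟩
  have hinv : ∀ g : FreeGroup B, (∀ y ∈ F, g • y ∈ F) → ∀ y ∈ F, g⁻¹ • y ∈ F := by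
    intro g hg y hy
    have h2 : Set.BijOn (fun y => g • y) F F :=
      (hF.injOn_iff_bijOn_of_mapsTo hg).1 (MulAction.injective g).injOn
    obtain ⟨z, hz, rfl⟩ := h2.surjOn hy
    simpa using hz
  have hb : ∃ b : B, ¬ ∀ y ∈ F, of b • y ∈ F := by
    by_contra hcon
    push Not at hcon
    have h2 : ∀ g : FreeGroup B, ∀ y ∈ F, g • y ∈ F := by
      intro g
      induction g using FreeGroup.induction_on with
      | C1 => simp
      | of b => exact hcon b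
      | inv_of b _ => exact hinv _ (hcon b)
      | mul x y hx hy => intro z hz; rw [mul_smul]; exact hx _ (hy _ hz)
    have h3 : F = Set.univ := by
      refine Set.eq_univ_of_forall fun y => ?_
      induction y using QuotientGroup.induction_on with
      | H g => simpa using h2 g _ ⟨1, h1, rfl⟩
    have : Finite (FreeGroup B ⧸ K) := Set.finite_univ_iff.1 (h3 ▸ hF)
    exact Subgroup.index_ne_zero_of_finite hK
  obtain ⟨b, hb⟩ := hb
  have hb' : ¬ ∀ y ∈ F, (of b)⁻¹ • y ∈ F := fun h => hb (by simpa using hinv _ h)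
  push Not at hb hb'
  obtain ⟨y, hy, hy'⟩ := hb
  obtain ⟨z, hz, hz'⟩ := hb'
  induction y using QuotientGroup.induction_on with
  | H p =>
  induction z using QuotientGroup.induction_on with
  | H r =>
  refine ⟨b, p, (of b)⁻¹ * r, (hmem p).2 hy, ?_, ?_, ?_⟩
  · rw [hmem]; exact hy'
  · rw [hmem]; exact hz'
  · rw [hmem]; simpa using hz

theorem exists_pingpong [Finite B] (K : Subgroup (FreeGroup B)) (hfg : K.FG) (hK : K.index = 0) :
    ∃ (D : Set (FreeGroup B)) (k : FreeGroup B), D.Nonempty ∧ (∀ w ∈ D, ∀ h ∈ K, w * h * k ∈ D) ∧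
      ∀ w ∈ D, ∀ h ∈ K, ∀ w' ∈ D, ∀ h' ∈ K, w * h = w' * h' → h = h' := by
  classical
  obtain ⟨T, hT⟩ := hfg
  set c := T.sup FreeGroup.norm with hc
  let C : Set (FreeGroup B) := {g | ∃ w ∈ {w : FreeGroup B | w.norm ≤ c}, w⁻¹ * g ∈ K}
  have hC1 : ∀ w : FreeGroup B, w.norm ≤ c → ∀ κ ∈ K, w * κ ∈ C :=
    fun w hw κ hκ => ⟨w, hw, by simpa using hκ⟩
  have hCK : ∀ g, ∀ h ∈ K, g * h ∈ C ↔ g ∈ C := by
    intro g h hh
    constructor
    · rintro ⟨w, hw, h1⟩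
      exact ⟨w, hw, by simpa [mul_assoc] using K.mul_mem h1 (K.inv_mem hh)⟩
    · rintro ⟨w, hw, h1⟩
      exact ⟨w, hw, by simpa [mul_assoc] using K.mul_mem h1 hh⟩
  have conn : ∀ ψ : FreeGroup B → ZMod 2,
      (∀ b g, g ∈ C → of b * g ∈ C → ψ (of b * g) = ψ g) → ∀ g ∈ C, ψ g = ψ 1 := by
    intro ψ hψ
    have h1 : ∀ w : FreeGroup B, w.norm ≤ c → ∀ κ ∈ K, ψ (w * κ) = ψ κ :=
      fun w hw κ hκ => walk ψ C hψ w κ fun v hv => hC1 v (hv.trans hw) κ hκ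
    have h2 : ∀ h ∈ K, ∀ κ ∈ K, ψ (h * κ) = ψ κ := by
      intro h hh
      rw [← hT] at hh
      induction hh using Subgroup.closure_induction'' with
      | one => simp
      | mem x hx => exact h1 x (Finset.le_sup (f := FreeGroup.norm) hx)
      | inv_mem x hx => exact h1 x⁻¹ (by rw [norm_inv_eq]; exact Finset.le_sup (f := FreeGroup.norm) hx)
      | mul x y hx hy ihx ihy =>
        intro κ hκ
        rw [hT] at hy
        rw [mul_assoc, ihx _ (K.mul_mem hy hκ), ihy _ hκ]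
    rintro g ⟨w, hw, hg⟩
    have h3 := h1 w hw _ hg
    have h4 := h2 _ hg 1 K.one_mem
    simp only [mul_inv_cancel_left, mul_one] at h3 h4
    rw [h3, h4]
  obtain ⟨b, p, q, hp, hp', hq, hq'⟩ := exists_exits K hK {w : FreeGroup B | w.norm ≤ c}
    (ball_finite c) (by simp)
  change p ∈ C at hp
  change of b * p ∉ C at hp'
  change q ∉ C at hq
  change of b * q ∈ C at hq'
  let Good : (FreeGroup B → ZMod 2) → FreeGroup B → Prop := fun χ r =>
    (∀ b' g, χ (of b' * g) = χ g + if b' = b ∧ g = r then 1 else 0) ∧ (∀ g ∈ C, χ g = 0) ∧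
      (r ∈ C ∨ of b * r ∈ C)
  have ex : ∀ r, ¬ (r ∈ C ∧ of b * r ∈ C) → (r ∈ C ∨ of b * r ∈ C) → ∃ χ, Good χ r := by
    intro r h1 h2
    obtain ⟨χ, h3, h4⟩ := exists_integral fun b' g => if b' = b ∧ g = r then 1 else 0
    refine ⟨χ, h4, ?_, h2⟩
    intro g hg
    rw [← h3]
    refine conn χ ?_ g hg
    intro b' g hg hg'
    rw [h4, if_neg, add_zero]
    rintro ⟨rfl, rfl⟩
    exact h1 ⟨hg, hg'⟩
  have tr : ∀ χ r, Good χ r → ∀ h ∈ K, Good (fun g => χ (g * h⁻¹)) (r * h) := by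
    rintro χ r ⟨h1, h2, h3⟩ h hh
    refine ⟨?_, ?_, ?_⟩
    · intro b' g
      simp only [mul_assoc, h1, mul_inv_eq_iff_eq_mul]
    · intro g hg
      exact h2 _ ((hCK g _ (K.inv_mem hh)).2 hg)
    · rw [← mul_assoc, hCK _ _ hh, hCK _ _ hh]; exact h3
  have half : ∀ (χ₁ : FreeGroup B → ZMod 2) r₁ χ₂ r₂, Good χ₂ r₂ → (r₁ ∈ C ∨ of b * r₁ ∈ C) → r₁ ≠ r₂ →
      χ₁ (of b * r₁) * χ₂ (of b * r₁) = χ₁ r₁ * χ₂ r₁ := by
    rintro χ₁ r₁ χ₂ r₂ ⟨h1, h2, -⟩ h3 hne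
    have h4 : χ₂ (of b * r₁) = χ₂ r₁ := by rw [h1, if_neg (fun h => hne h.2), add_zero]
    rcases h3 with h3 | h3
    · rw [h4, h2 _ h3]; simp
    · rw [← h4, h2 _ h3]; simp
  have disj : ∀ χ₁ r₁ χ₂ r₂, Good χ₁ r₁ → Good χ₂ r₂ → r₁ ≠ r₂ → ∀ g, χ₁ g * χ₂ g = 0 := by
    intro χ₁ r₁ χ₂ r₂ g1 g2 hne g
    have h1 := const_of_edges (fun g => χ₁ g * χ₂ g) (by
      intro b' g
      by_cases e1 : b' = b ∧ g = r₁
      · obtain ⟨rfl, rfl⟩ := e1
        exact half χ₁ _ χ₂ r₂ g2 g1.2.2 hne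
      by_cases e2 : b' = b ∧ g = r₂
      · obtain ⟨rfl, rfl⟩ := e2
        rw [mul_comm, mul_comm (χ₁ g)]
        exact half χ₂ _ χ₁ r₁ g1 g2.2.2 hne.symm
      rw [g1.1, g2.1, if_neg e1, if_neg e2, add_zero, add_zero]) g
    have h2 : (1 : FreeGroup B) ∈ C := by simpa using hC1 1 (by simp) 1 K.one_mem
    simpa [g1.2.1 1 h2] using h1
  obtain ⟨χ, hχ⟩ := ex p (fun h => hp' h.2) (Or.inl hp)
  obtain ⟨χ', hχ'⟩ := ex q (fun h => hq h.1) (Or.inr hq')
  have hz : ∀ x : ZMod 2, x + 1 = 0 → x = 1 := by decide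
  have hz2 : ∀ x y : ZMod 2, x + y = 1 → y = 0 → x = 1 := by decide
  have hq1 : χ' q = 1 := by
    have := hχ'.1 b q
    rw [hχ'.2.1 _ hq', if_pos ⟨rfl, rfl⟩] at this
    exact hz _ this.symm
  have hk : ∀ g, χ (g * (q⁻¹ * p)) + χ' g = 1 := by
    have h1 := const_of_edges (fun g => χ (g * (q⁻¹ * p)) + χ' g) (by
      intro b' g
      have e : g * (q⁻¹ * p) = p ↔ g = q := by
        rw [← mul_assoc, mul_eq_right, mul_inv_eq_one]
      simp only [mul_assoc, hχ.1, hχ'.1, e]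
      have hy : ∀ x y z : ZMod 2, x + z + (y + z) = x + y := by decide
      exact hy _ _ _)
    intro g
    have h2 := h1 q
    simp only [mul_inv_cancel_left, hχ.2.1 p hp, hq1, zero_add] at h2
    exact (h1 g).trans h2.symm
  refine ⟨{g | χ g = 1}, q⁻¹ * p, ⟨of b * p, ?_⟩, ?_, ?_⟩
  · have := hχ.1 b p
    rw [hχ.2.1 _ hp, if_pos ⟨rfl, rfl⟩] at this
    simpa using this
  · intro w hw h hh
    have h0 : p * h ≠ q := fun e => hq (e ▸ (hCK p h hh).2 hp)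
    have h1 := disj (fun g => χ (g * h⁻¹)) (p * h) χ' q (tr χ p hχ h hh) hχ' h0 (w * h)
    have hw' : χ w = 1 := hw
    simp only [mul_inv_cancel_right, hw', one_mul] at h1
    exact hz2 _ _ (hk _) h1
  · intro w hw h hh w' hw' h' hh' e
    by_contra hne
    have h0 : p * h ≠ p * h' := fun e => hne (mul_left_cancel e)
    have h1 := disj (fun g => χ (g * h⁻¹)) (p * h) (fun g => χ (g * h'⁻¹)) (p * h')
      (tr χ p hχ h hh) (tr χ p hχ h' hh') h0 (w * h)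
    have a1 : χ w = 1 := hw
    have a2 : χ w' = 1 := hw'
    simp only [mul_inv_cancel_right, a1, one_mul] at h1
    rw [e] at h1
    simp [a2] at h1

end Pool.Agent.H958Z.BiRev
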