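import Pool.Agent.H958Z.BiRev.Free

/-!
Isomorphic subgroups of finite index of a non-abelian free group of finite rank have the same index
(a form of the Schreier index formula, by counting homomorphisms to the group of order two).
-/

namespace Pool.Agent.H958Z.BiRev

open FreeGroup hiding map_mul map_one norm

variable {B : Type}

lemma card_hom [Finite B] (H : Subgroup (FreeGroup B)) (hH : H.index ≠ 0) :
    2 ^ H.index * Nat.card (H →* Multiplicative (ZMod 2)) = 2 * 2 ^ (H.index * Nat.card B) := by
  have : Finite (FreeGroup B ⧸ H) := Nat.finite_of_card_ne_zero hH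
  let V := {χ : FreeGroup B → ZMod 2 //
    ∀ b g, ∀ h ∈ H, χ (of b * (g * h)) + χ (g * h) = χ (of b * g) + χ g}
  have hout : ∀ g : FreeGroup B, ((g : FreeGroup B ⧸ H).out)⁻¹ * g ∈ H := fun g =>
    QuotientGroup.eq.1 (Quotient.out_eq _)
  have z1 : ∀ x y z w : ZMod 2, x + y = z + w → x + z = y + w := by decide
  have z2 : ∀ x y z w : ZMod 2, x + y = z + w → y = w → x = z := by decide
  have hV : ∀ χ : V, ∀ g, ∀ h ∈ H, χ.1 (g * h) + χ.1 g = χ.1 h + χ.1 1 := by
    intro χ g h hh
    have := const_of_edges (fun g => χ.1 (g * h) + χ.1 g) (by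
      intro b g
      simp only [mul_assoc]
      exact z1 _ _ _ _ (χ.2 b g h hh)) g
    simpa using this
  let e1 : V → ZMod 2 × (B → FreeGroup B ⧸ H → ZMod 2) := fun χ =>
    (χ.1 1, fun b y => χ.1 (of b * y.out) + χ.1 y.out)
  have he1 : Function.Bijective e1 := by
    constructor
    · intro χ χ' he
      have h1 : χ.1 1 = χ'.1 1 := congrArg Prod.fst he
      have h2 : ∀ b (y : FreeGroup B ⧸ H), χ.1 (of b * y.out) + χ.1 y.out =
          χ'.1 (of b * y.out) + χ'.1 y.out := fun b y => congrFun (congrFun (congrArg Prod.snd he) b) y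
      apply Subtype.ext
      funext g
      have := const_of_edges (fun g => χ.1 g + χ'.1 g) (by
        intro b g
        have a1 := χ.2 b (g : FreeGroup B ⧸ H).out _ (hout g)
        have a2 := χ'.2 b (g : FreeGroup B ⧸ H).out _ (hout g)
        simp only [mul_inv_cancel_left] at a1 a2
        apply z1
        rw [a1, a2, h2]) g
      simp only [h1] at this
      revert this
      generalize χ.1 g = x; generalize χ'.1 g = y; generalize χ'.1 1 = z
      revert x y z; decide
    · rintro ⟨a, E⟩
      obtain ⟨χ, h1, h2⟩ := exists_integral fun b g => E b (g : FreeGroup B ⧸ H)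
      have z3 : ∀ x y a : ZMod 2, x + y + a + (x + a) = y := by decide
      refine ⟨⟨fun g => χ g + a, ?_⟩, ?_⟩
      · intro b g h hh
        have : ((g * h : FreeGroup B) : FreeGroup B ⧸ H) = g := QuotientGroup.mk_mul_of_mem g hh
        simp only [h2, z3, this]
      · simp only [e1, h1, zero_add, h2, z3, QuotientGroup.out_eq']
  let e2 : V → (FreeGroup B ⧸ H → ZMod 2) × (H →* Multiplicative (ZMod 2)) := fun χ =>
    (fun y => χ.1 y.out, MonoidHom.mk' (fun h => Multiplicative.ofAdd (χ.1 h + χ.1 1)) (by
      intro h h'
      rw [← ofAdd_add]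
      congr 1
      have := hV χ h h' h'.2
      simp only [Subgroup.coe_mul]
      revert this
      generalize χ.1 (h * h') = x; generalize χ.1 h = y; generalize χ.1 h' = z
      generalize χ.1 1 = w
      revert x y z w; decide))
  have he2 : Function.Bijective e2 := by
    constructor
    · intro χ χ' he
      have h1 : ∀ y : FreeGroup B ⧸ H, χ.1 y.out = χ'.1 y.out :=
        fun y => congrFun (congrArg Prod.fst he) y
      have h2 : ∀ h : H, χ.1 h + χ.1 1 = χ'.1 h + χ'.1 1 := fun h => by
        have := DFunLike.congr_fun (congrArg Prod.snd he) h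
        exact Multiplicative.ofAdd.injective this
      apply Subtype.ext
      funext g
      have a1 := hV χ (g : FreeGroup B ⧸ H).out _ (hout g)
      have a2 := hV χ' (g : FreeGroup B ⧸ H).out _ (hout g)
      simp only [mul_inv_cancel_left] at a1 a2
      have a3 := h2 ⟨_, hout g⟩
      exact z2 _ _ _ _ (a1.trans (a3.trans a2.symm)) (h1 _)
    · rintro ⟨a, lam⟩
      let χ : FreeGroup B → ZMod 2 := fun g =>
        a (g : FreeGroup B ⧸ H) + Multiplicative.toAdd (lam ⟨_, hout g⟩)
      have h1 : ∀ g, ∀ h : H, χ (g * h) = χ g + Multiplicative.toAdd (lam h) := by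
        intro g h
        have e : ((g * h : FreeGroup B) : FreeGroup B ⧸ H) = g := QuotientGroup.mk_mul_of_mem g h.2
        have e' : (⟨_, hout (g * h)⟩ : H) = ⟨_, hout g⟩ * h := by
          apply Subtype.ext
          simp only [Subgroup.coe_mul, e, mul_assoc]
        show a _ + Multiplicative.toAdd (lam ⟨_, hout (g * h)⟩) = _
        rw [e', map_mul, toAdd_mul, e, add_assoc]
      refine ⟨⟨χ, ?_⟩, ?_⟩
      · intro b g h hh
        rw [← mul_assoc, h1 _ ⟨h, hh⟩, h1 _ ⟨h, hh⟩]
        generalize χ (of b * g) = x; generalize χ g = y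
        generalize Multiplicative.toAdd (lam ⟨h, hh⟩) = z
        revert x y z; decide
      · apply Prod.ext
        · funext y
          have e : (⟨_, hout y.out⟩ : H) = 1 := by
            apply Subtype.ext
            simp
          show a _ + Multiplicative.toAdd (lam ⟨_, hout y.out⟩) = _
          rw [e, map_one, toAdd_one, add_zero, QuotientGroup.out_eq']
        · ext h
          have := h1 1 h
          rw [one_mul] at this
          simp only [e2, MonoidHom.mk'_apply, this]
          have z3 : ∀ x y : ZMod 2, x + y + x = y := by decide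
          rw [z3]; rfl
  have c1 := Nat.card_eq_of_bijective _ he1
  have c2 := Nat.card_eq_of_bijective _ he2
  rw [c1] at c2
  simp only [Nat.card_prod, Nat.card_fun, Nat.card_zmod] at c2
  rw [pow_mul]
  exact c2.symm

lemma index_eq_of_iso [Finite B] (hnc : ∃ a b : FreeGroup B, ¬ Commute a b)
    (H K : Subgroup (FreeGroup B)) (hH : H.index ≠ 0) (hK : K.index ≠ 0) (e : H ≃* K) :
    H.index = K.index := by
  have hB : 2 ≤ Nat.card B := by
    by_contra hlt
    have hs : Subsingleton B := Finite.card_le_one_iff_subsingleton.1 (by omega)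
    obtain ⟨a, b, hab⟩ := hnc
    apply hab
    have h1 : ∀ x : B, ∀ w : FreeGroup B, Commute (of x) w := by
      intro x w
      induction w using FreeGroup.induction_on with
      | C1 => exact Commute.one_right _
      | of y => rw [Subsingleton.elim x y]
      | inv_of y h => exact h.inv_right
      | mul u v hu hv => exact hu.mul_right hv
    clear hab
    induction a using FreeGroup.induction_on with
    | C1 => exact Commute.one_left _
    | of y => exact h1 y b
    | inv_of y h => exact (h1 y b).inv_left
    | mul u v hu hv => exact hu.mul_left hv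
  have h1 := card_hom H hH
  have h2 := card_hom K hK
  have h3 : Nat.card (H →* Multiplicative (ZMod 2)) = Nat.card (K →* Multiplicative (ZMod 2)) :=
    Nat.card_congr (MulEquiv.monoidHomCongrLeftEquiv e)
  rw [h3] at h1
  have h4 : 2 ^ (K.index + H.index * Nat.card B) = 2 ^ (H.index + K.index * Nat.card B) := by
    have : 2 * 2 ^ (K.index + H.index * Nat.card B) = 2 * 2 ^ (H.index + K.index * Nat.card B) := by
      rw [pow_add, pow_add, mul_left_comm, ← h1, mul_left_comm 2, ← h2]; ring
    omega
  have h5 := Nat.pow_right_injective (le_refl 2) h4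
  obtain ⟨n, hn⟩ : ∃ n, Nat.card B = n + 1 + 1 := ⟨Nat.card B - 2, by omega⟩
  rw [hn] at h5
  have h6 : H.index * (n + 1) = K.index * (n + 1) := by
    simp only [mul_add, mul_one] at h5 ⊢; omega
  exact Nat.eq_of_mul_eq_mul_right (by omega) h6

end Pool.Agent.H958Z.BiRev
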