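import Pool.Agent.H958Z.BiRev.Cuts
import Pool.Agent.H958Z.BiRev.PingPong
import Pool.Agent.H958Z.BiRev.Rank

/-!
Faithful finite-state self-similar actions of non-abelian free groups that are transitive on the
first level have injective section maps.
-/

namespace Pool.Agent.H958Z.BiRev

open Filter

variable {B X : Type} [Finite X] [MulAction (FreeGroup B) X]

lemma kernel_trivial [MulAction.IsPretransitive (FreeGroup B) X]
    (hnc : ∃ a b : FreeGroup B, ¬ Commute a b) (σ : FreeGroup B → X → FreeGroup B)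
    (hσ : ∀ g h x, σ (g * h) x = σ g (h • x) * σ h x)
    (faith : ∀ g, (∀ x : X, g • x = x ∧ σ g x = 1) → g = 1) (g : FreeGroup B) (x : X)
    (h1 : g • x = x) (h2 : σ g x = 1) : g = 1 := by
  classical
  by_contra hg
  have σ1 : ∀ x, σ 1 x = 1 := fun x => by simpa using hσ 1 1 x
  have σinv : ∀ g x, σ g⁻¹ (g • x) = (σ g x)⁻¹ := fun g x => by
    have := hσ g⁻¹ g x
    rw [inv_mul_cancel, σ1] at this
    exact eq_inv_of_mul_eq_one_left this.symm
  let N : Subgroup (FreeGroup B) := (MulAction.toPermHom (FreeGroup B) X).ker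
  have hN : N.index ≠ 0 := by
    rw [Subgroup.index_ker]
    exact Nat.card_pos.ne'
  have hNm : ∀ g, g ∈ N ↔ ∀ x : X, g • x = x := by
    intro g
    simp [N, MonoidHom.mem_ker, Equiv.ext_iff]
  let M : X → Subgroup (FreeGroup B) := fun y =>
    { carrier := {g | g ∈ N ∧ σ g y = 1}
      one_mem' := ⟨N.one_mem, σ1 y⟩
      mul_mem' := by
        rintro a b ⟨a1, a2⟩ ⟨b1, b2⟩
        refine ⟨N.mul_mem a1 b1, ?_⟩
        rw [hσ, (hNm b).1 b1, a2, b2, one_mul]
      inv_mem' := by
        rintro a ⟨a1, a2⟩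
        refine ⟨N.inv_mem a1, ?_⟩
        have := σinv a y
        rwa [(hNm a).1 a1, a2, inv_one] at this }
  have conj : ∀ y, ∀ a ∈ M y, ∀ n : FreeGroup B, n * a * n⁻¹ ∈ M (n • y) := by
    rintro y a ⟨a1, a2⟩ n
    refine ⟨(MonoidHom.normal_ker _).conj_mem a a1 n, ?_⟩
    rw [hσ, hσ, inv_smul_smul, (hNm a).1 a1, a2, σinv]; simp
  have hMx : ∃ a ∈ M x, a ≠ 1 := by
    obtain ⟨n, hn, -, hgn⟩ := N.exists_pow_mem_of_index_ne_zero hN g
    refine ⟨g ^ n, ⟨hgn, ?_⟩, by simp [hg, hn.ne']⟩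
    clear hgn hn
    induction n with
    | zero => simpa using σ1 x
    | succ n ih => rw [pow_succ, hσ, h1, ih, h2, one_mul]
  have hM : ∀ y, ∃ a ∈ M y, a ≠ 1 := by
    intro y
    obtain ⟨n, rfl⟩ := MulAction.exists_smul_eq (FreeGroup B) x y
    obtain ⟨a, ha, ha1⟩ := hMx
    exact ⟨_, conj x a ha n, by simpa using ha1⟩
  have key : ∀ s : Finset X, ∃ a ∈ N ⊓ ⨅ y ∈ s, M y, a ≠ 1 := by
    intro s
    induction s using Finset.induction_on with
    | empty =>
      obtain ⟨a, ha, ha1⟩ := hMx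
      exact ⟨a, by simpa using ha.1, ha1⟩
    | insert y s _ ih =>
      obtain ⟨a, ha, ha1⟩ := inter_nontrivial hnc N (M y) (N ⊓ ⨅ y ∈ s, M y) hN
        (fun a ha => ha.1) inf_le_left
        (fun n hn a ha => by simpa [(hNm n).1 hn] using conj y a ha n)
        (fun n hn a ha => by
          simp only [Subgroup.mem_inf, Subgroup.mem_iInf] at ha ⊢
          refine ⟨(MonoidHom.normal_ker _).conj_mem a ha.1 n, fun z hz => ?_⟩
          simpa [(hNm n).1 hn] using conj z a (ha.2 z hz) n) (hM y) ih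
      refine ⟨a, ?_, ha1⟩
      simp only [Subgroup.mem_inf, Subgroup.mem_iInf, Finset.mem_insert] at ha ⊢
      refine ⟨ha.2.1, ?_⟩
      rintro z (rfl | hz)
      exacts [ha.1, ha.2.2 z hz]
  have := Fintype.ofFinite X
  obtain ⟨a, ha, ha1⟩ := key Finset.univ
  simp only [Subgroup.mem_inf, Subgroup.mem_iInf] at ha
  exact ha1 (faith a fun y => ⟨(hNm a).1 ha.1 y, (ha.2 y (Finset.mem_univ _)).2⟩)

theorem section_injective [MulAction.IsPretransitive (FreeGroup B) X]
    (hnc : ∃ a b : FreeGroup B, ¬ Commute a b) (σ : FreeGroup B → X → FreeGroup B)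
    (hσ : ∀ g h x, σ (g * h) x = σ g (h • x) * σ h x)
    (faith : ∀ g, (∀ x : X, g • x = x ∧ σ g x = 1) → g = 1) (S : Finset (FreeGroup B))
    (hS : Subgroup.closure (S : Set (FreeGroup B)) = ⊤) (hSσ : ∀ s ∈ S, ∀ x, σ s x ∈ S) (x : X) :
    Function.Injective fun g => σ g x := by
  classical
  have hfin : Finite B := finite_basis S hS
  have hne : Nonempty B := by
    by_contra h
    rw [not_nonempty_iff] at h
    obtain ⟨a, b, hab⟩ := hnc
    exact hab (Subsingleton.elim _ _)
  have := Fintype.ofFinite X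
  have σ1 : ∀ x, σ 1 x = 1 := fun x => by simpa using hσ 1 1 x
  have σinv : ∀ g x, σ g⁻¹ (g • x) = (σ g x)⁻¹ := fun g x => by
    have := hσ g⁻¹ g x
    rw [inv_mul_cancel, σ1] at this
    exact eq_inv_of_mul_eq_one_left this.symm
  let U : Finset (FreeGroup B) := S ∪ S.image (·⁻¹)
  have hUm : ∀ s, s ∈ U ↔ s ∈ S ∨ s⁻¹ ∈ S := by
    intro s
    simp only [U, Finset.mem_union, Finset.mem_image]
    refine or_congr_right ⟨?_, fun h => ⟨_, h, inv_inv s⟩⟩
    rintro ⟨a, ha, rfl⟩; simpa using ha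
  have hU : Subgroup.closure (U : Set (FreeGroup B)) = ⊤ := by
    rw [eq_top_iff, ← hS]
    exact Subgroup.closure_mono fun s hs => (hUm s).2 (Or.inl hs)
  have hs : ∀ s ∈ U, s⁻¹ ∈ U := fun s h => by
    rw [hUm] at h ⊢; rw [inv_inv]; exact h.symm
  have hUσ : ∀ s ∈ U, ∀ y, σ s y ∈ U := by
    intro s h y
    rw [hUm] at h ⊢
    refine h.imp (fun h => hSσ s h y) fun h => ?_
    rw [← σinv]; exact hSσ _ h _
  set f : FreeGroup B → FreeGroup B := fun g => σ g x with hf
  have hfs : ∀ s ∈ U, ∀ g, ∃ s' ∈ U, f (s * g) = s' * f g :=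
    fun s h g => ⟨_, hUσ s h (g • x), hσ s g x⟩
  let H : Subgroup (FreeGroup B) := MulAction.stabilizer (FreeGroup B) x
  have hfH : ∀ g, ∀ h ∈ H, f (g * h) = f g * f h := fun g h hh => by
    simp only [hf, hσ, MulAction.mem_stabilizer_iff.1 hh]
  let φ : H →* FreeGroup B := MonoidHom.mk' (fun h => f h) fun a b => hfH a b b.2
  have hφ : Function.Injective φ := (injective_iff_map_eq_one φ).2 fun a ha =>
    Subtype.ext (kernel_trivial hnc σ hσ faith a x a.2 ha)
  have hHi : H.index = Fintype.card X := by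
    rw [MulAction.index_stabilizer_of_transitive, Nat.card_eq_fintype_card]
  have hd : 0 < Fintype.card X := Fintype.card_pos_iff.2 ⟨x⟩
  have hpair : ∀ g g' : FreeGroup B, g • x = g' • x → ∃ h : H, g' = g * h := fun g g' e =>
    ⟨⟨g⁻¹ * g', by rw [MulAction.mem_stabilizer_iff, mul_smul, ← e, inv_smul_smul]⟩, by simp⟩
  let K : Subgroup (FreeGroup B) := φ.range
  -- finite index of the image
  have hKi : K.index ≠ 0 := by
    intro hK0
    have hfgG : Group.FG (FreeGroup B) := ⟨⟨S, hS⟩⟩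
    have : H.FiniteIndex := ⟨by omega⟩
    have hfg : K.FG := (Group.fg_iff_subgroup_fg K).1 (Group.fg_range φ)
    obtain ⟨D, k, hD, hk, hinj⟩ := exists_pingpong K hfg hK0
    choose τ hτ using fun y => MulAction.exists_smul_eq (FreeGroup B) x y
    have hl := isLength_len hU hs
    refine growth_contra hl K D (fun g => (g • x, (f (τ (g • x)))⁻¹ * f g)) ?_
      (Finset.univ.sup fun y => len U (f (τ y))⁻¹) ?_ ?_ k hD hk hinj
    · intro g g' e
      have e1 : g • x = g' • x := congrArg Prod.fst e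
      have e2 : (f (τ (g • x)))⁻¹ * f g = (f (τ (g' • x)))⁻¹ * f g' := congrArg Prod.snd e
      rw [e1] at e2
      obtain ⟨h, rfl⟩ := hpair g g' e1
      rw [hfH g h h.2] at e2
      have e3 : φ h = 1 := left_eq_mul.1 (mul_left_cancel e2)
      rw [hφ (e3.trans (map_one φ).symm)]; simp
    · intro g
      obtain ⟨h, hh⟩ := hpair (τ (g • x)) g (hτ _)
      refine ⟨h, ?_⟩
      show f h = (f (τ (g • x)))⁻¹ * f g
      rw [eq_inv_mul_iff_mul_eq, ← hfH _ _ h.2, ← hh]
    · intro g
      have a1 := hl.mul_le (f (τ (g • x)))⁻¹ (f g)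
      have a2 := len_map_le hU hs f (σ1 x) hfs g
      have a3 : len U (f (τ (g • x)))⁻¹ ≤ Finset.univ.sup fun y => len U (f (τ y))⁻¹ :=
        Finset.le_sup (f := fun y => len U (f (τ y))⁻¹) (Finset.mem_univ _)
      show len U ((f (τ (g • x)))⁻¹ * f g) ≤ _
      omega
  have hidx : H.index = K.index :=
    index_eq_of_iso hnc H K (by omega) hKi (MonoidHom.ofInjective hφ)
  have hKfin : Finite (FreeGroup B ⧸ K) := Nat.finite_of_card_ne_zero hKi
  have := Fintype.ofFinite (FreeGroup B ⧸ K)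
  have hpairinj : Function.Injective fun g => (g • x, f g) := by
    intro g g' e
    have e2 : f g = f g' := congrArg Prod.snd e
    obtain ⟨h, rfl⟩ := hpair g g' (congrArg Prod.fst e)
    rw [hfH g h h.2] at e2
    have e3 : φ h = 1 := left_eq_mul.1 e2
    rw [hφ (e3.trans (map_one φ).symm)]; simp
  have hfib : ∀ Z : Finset (FreeGroup B), (f ⁻¹' (Z : Set (FreeGroup B))).Finite := by
    intro Z
    refine Set.Finite.subset (Set.Finite.preimage hpairinj.injOn
      ((Set.finite_univ (α := X)).prod Z.finite_toSet)) ?_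
    intro g hg
    exact ⟨trivial, hg⟩
  have hft : Tendsto f cofinite cofinite := by
    refine Tendsto.cofinite_of_finite_preimage_singleton fun y => ?_
    exact Set.Finite.to_subtype (by simpa using hfib {y})
  -- a function that is almost invariant and eventually constant after pull-back is so before
  have hdense : ∀ (χ : FreeGroup B → ZMod 2), (∀ w, ∀ᶠ g in cofinite, χ (w * g) = χ g) →
      ∀ a, (∀ᶠ g in cofinite, χ (f g) = a) → ∀ᶠ g in cofinite, χ g = a := by
    intro χ hχ a ha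
    have h1 : {κ | κ ∈ K ∧ χ κ ≠ a}.Finite := by
      refine (Set.Finite.image f ha).subset ?_
      rintro κ ⟨⟨h, rfl⟩, h2⟩
      exact ⟨h, h2, rfl⟩
    have h2 : ∀ c : FreeGroup B ⧸ K, {g : FreeGroup B | (g : FreeGroup B ⧸ K) = c ∧ χ g ≠ a}.Finite := by
      intro c
      refine ((h1.union (hχ c.out)).image fun κ => c.out * κ).subset ?_
      rintro g ⟨rfl, hg⟩
      refine ⟨((g : FreeGroup B ⧸ K).out)⁻¹ * g, ?_, by simp⟩
      by_cases e : χ (((g : FreeGroup B ⧸ K).out)⁻¹ * g) = a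
      · right
        simp only [Set.mem_compl_iff, Set.mem_ofPred_eq, mul_inv_cancel_left, e]
        exact hg
      · left
        exact ⟨QuotientGroup.eq.1 (Quotient.out_eq _), e⟩
    refine (Set.finite_iUnion h2).subset ?_
    intro g hg
    exact Set.mem_iUnion.2 ⟨_, rfl, hg⟩
  have hpull : ∀ χ Z, MinCut U χ Z → Sep U (χ ∘ f) (hfib Z).toFinset ∧ Nontriv (χ ∘ f) := by
    intro χ Z h
    refine ⟨?_, fun a ha => h.2.1 a (hdense χ (almost_inv hU hs h.1) a ha)⟩
    intro s hsU g a1 a2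
    obtain ⟨s', b1, b2⟩ := hfs s hsU g
    simp only [Set.Finite.mem_toFinset, Set.mem_preimage, Finset.mem_coe] at a1 a2
    simp only [Function.comp, b2] at a2 ⊢
    exact h.1 s' b1 _ a1 a2
  have havg : ∀ χ Z, MinCut U χ Z → ∀ c : FreeGroup B ⧸ K,
      (hfib (Z.image (· * c.out))).toFinset.card = mcut U := by
    intro χ Z h
    have h1 : ∀ c : FreeGroup B ⧸ K, mcut U ≤ (hfib (Z.image (· * c.out))).toFinset.card :=
      fun c => mcut_le (hpull _ _ (h.translate c.out)).1 (hpull _ _ (h.translate c.out)).2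
    have h2 : ∑ c : FreeGroup B ⧸ K, (hfib (Z.image (· * c.out))).toFinset.card ≤
        Fintype.card X * mcut U := by
      rw [← Finset.card_sigma, ← h.2.2, ← Finset.card_univ, ← Finset.card_product]
      refine Finset.card_le_card_of_injOn (fun p => (p.2 • x, f p.2 * (p.1.out)⁻¹)) ?_ ?_
      · rintro ⟨c, u⟩ hp
        simp only [Finset.coe_sigma, Set.mem_sigma_iff, Finset.coe_image, Finset.mem_coe,
          Set.Finite.mem_toFinset, Set.mem_preimage, Set.mem_image] at hp
        obtain ⟨-, z, hz, e⟩ := hp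
        simp [← e, hz]
      · rintro ⟨c, u⟩ - ⟨c', u'⟩ - e
        have e1 : u • x = u' • x := congrArg Prod.fst e
        have e2 : f u * (c.out)⁻¹ = f u' * (c'.out)⁻¹ := congrArg Prod.snd e
        obtain ⟨h, rfl⟩ := hpair u u' e1
        rw [hfH u h h.2, mul_assoc] at e2
        have e3 : (c.out)⁻¹ * c'.out = φ h := by
          rw [mul_left_cancel e2]; simp [φ]
        have e4 : c = c' := by
          rw [← QuotientGroup.out_eq' c, ← QuotientGroup.out_eq' c', QuotientGroup.eq, e3]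
          exact ⟨h, rfl⟩
        subst e4
        rw [inv_mul_cancel] at e3
        rw [hφ (e3.symm.trans (map_one φ).symm)]; simp
    have h3 : ∑ _c : FreeGroup B ⧸ K, mcut U = Fintype.card X * mcut U := by
      rw [Finset.sum_const, smul_eq_mul, Finset.card_univ, ← hHi, hidx, Subgroup.index,
        Nat.card_eq_fintype_card]
    intro c
    have h4 := (Finset.sum_eq_sum_iff_of_le (s := Finset.univ) fun c _ => h1 c).1
      (le_antisymm (Finset.sum_le_sum fun c _ => h1 c) (h3 ▸ h2))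
    exact (h4 c (Finset.mem_univ _)).symm
  have hpull2 : ∀ χ Z, MinCut U χ Z → MinCut U (χ ∘ f) (hfib Z).toFinset := by
    intro χ Z h
    refine ⟨(hpull χ Z h).1, (hpull χ Z h).2, ?_⟩
    set c : FreeGroup B ⧸ K := ((1 : FreeGroup B) : FreeGroup B ⧸ K)
    have h1 := havg _ _ (h.translate (c.out)⁻¹) c
    have h2 : (Z.image (· * (c.out)⁻¹)).image (· * c.out) = Z := by
      rw [Finset.image_image]
      simp [Function.comp_def]
    simpa only [h2] using h1
  -- classes of cuts
  let T : FreeGroup B → Germ (cofinite : Filter (FreeGroup B)) (ZMod 2) →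
      Germ (cofinite : Filter (FreeGroup B)) (ZMod 2) := fun k γ =>
    γ.compTendsto (· * k⁻¹) (mul_left_injective k⁻¹).tendsto_cofinite
  have hT : ∀ k k' γ, T k (T k' γ) = T (k' * k) γ := by
    intro k k' γ
    induction γ using Germ.inductionOn with
    | h χ =>
      simp only [T, Germ.coe_compTendsto]
      congr 1
      funext g
      simp [mul_assoc]
  have hT1 : ∀ γ, T 1 γ = γ := by
    intro γ
    induction γ using Germ.inductionOn with
    | h χ =>
      simp only [T, Germ.coe_compTendsto]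
      congr 1
      funext g
      simp
  have hTinj : ∀ k, Function.Injective (T k) := fun k γ γ' e => by
    have := congrArg (T k⁻¹) e
    rwa [hT, hT, mul_inv_cancel, hT1, hT1] at this
  have hTc : ∀ u k, ∀ γ ∈ classes U u, T k γ ∈ classes U (u * k) := by
    rintro u k γ ⟨χ, Z, h, hu, rfl⟩
    exact ⟨_, _, h.translate k, Finset.mem_image.2 ⟨u, hu, rfl⟩, rfl⟩
  have hTe : ∀ u, classes U u = T u '' classes U 1 := by
    intro u
    apply Set.Subset.antisymm
    · intro γ hγ
      refine ⟨T u⁻¹ γ, by simpa using hTc u u⁻¹ γ hγ, ?_⟩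
      rw [hT, inv_mul_cancel, hT1]
    · rintro _ ⟨γ, hγ, rfl⟩
      simpa using hTc 1 u γ hγ
  have hcf : ∀ u, (classes U u).Finite := fun u => by
    rw [hTe]; exact (classes_one_finite hU hs).image _
  have hcn : ∀ u, (classes U u).ncard = (classes U 1).ncard := fun u => by
    rw [hTe u, Set.ncard_image_of_injective _ (hTinj u)]
  let Φ : Germ (cofinite : Filter (FreeGroup B)) (ZMod 2) →
      Germ (cofinite : Filter (FreeGroup B)) (ZMod 2) := fun γ => γ.compTendsto f hft
  have hΦ : ∀ u, Φ '' classes U (f u) = classes U u := by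
    intro u
    refine Set.eq_of_subset_of_ncard_le ?_ ?_ (hcf u)
    · rintro _ ⟨γ, ⟨χ, Z, h, hu, rfl⟩, rfl⟩
      exact ⟨_, _, hpull2 χ Z h, by simpa using hu, rfl⟩
    · rw [Set.InjOn.ncard_image, hcn, hcn (f u)]
      rintro _ ⟨χ, Z, h, -, rfl⟩ _ ⟨χ', Z', h', -, rfl⟩ e
      simp only [Φ, Germ.coe_compTendsto, Germ.coe_eq] at e ⊢
      have z1 : ∀ x : ZMod 2, x + x = 0 := by decide
      have z2 : ∀ x y : ZMod 2, x + y = 0 → x = y := by decide
      have := hdense (fun g => χ g + χ' g) (fun w => by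
        filter_upwards [almost_inv hU hs h.1 w, almost_inv hU hs h'.1 w] with g a1 a2
        rw [a1, a2]) 0 (e.mono fun g hg => by
          have hg' : χ (f g) = χ' (f g) := hg
          rw [hg', z1])
      exact this.mono fun g hg => z2 _ _ hg
  intro u u' e
  have e' : f u = f u' := e
  have h1 : classes U u = classes U u' := by rw [← hΦ u, ← hΦ u', e']
  set h := u⁻¹ * u' with hh
  have h2 : ∀ n : ℕ, ∀ γ ∈ classes U u, T (h ^ n) γ ∈ classes U u := by
    intro n γ hγ
    induction n with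
    | zero => simpa [hT1] using hγ
    | succ n ih =>
      have := hTc u h _ ih
      rw [hT, ← pow_succ, hh, mul_inv_cancel_left, ← h1] at this
      exact this
  obtain ⟨χ₀, Z₀, h₀⟩ := exists_cut U
  obtain ⟨z, hz⟩ := nonempty_of_sep hU hs h₀.1 h₀.2.1
  have h3 : T (z⁻¹ * u) χ₀ ∈ classes U u := by
    simpa using hTc z (z⁻¹ * u) χ₀ ⟨χ₀, Z₀, h₀, hz, rfl⟩
  obtain ⟨a, b, hab, e2⟩ := (hcf u).exists_lt_map_eq_of_forall_mem fun n : ℕ => h2 n _ h3
  obtain ⟨χ, Z, hZ, -, e3⟩ := h3
  rw [e3] at e2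
  have e4 := congrArg (T (h ^ b)⁻¹) e2
  rw [hT, hT, mul_inv_cancel, hT1] at e4
  simp only [T, Germ.coe_compTendsto, Germ.coe_eq] at e4
  have e5 := stab_trivial hnc (almost_inv hU hs hZ.1) hZ.2.1 e4
  rw [inv_eq_one, mul_inv_eq_one] at e5
  by_contra hne'
  have : h ≠ 1 := fun e => hne' (inv_mul_eq_one.1 e)
  exact hab.ne (IsMulTorsionFree.pow_right_injective this e5)

end Pool.Agent.H958Z.BiRev
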