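import Pool.Agent.H958Z.BiRev.Defs
import Pool.Agent.H958Z.BiRev.Main

namespace Pool.Agent.H958Z.BiRev

namespace Transducer

variable {Q A : Type} (T : Transducer Q A)

lemma perm_cons (q : Q) (a : A) (w : List A) :
    T.perm q (a :: w) = T.out q a :: T.perm (T.δ q a) w := rfl

lemma sections [Finite A] (g : Equiv.Perm (List A)) (hg : g ∈ T.group) :
    g [] = [] ∧ ∀ a, ∃ b, ∃ g' ∈ T.group, ∀ w, g (a :: w) = b :: g' w := by
  have nil : ∀ g ∈ T.group, g [] = [] := by
    intro g hg
    induction hg using Subgroup.closure_induction with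
    | mem x hx => obtain ⟨q, rfl⟩ := hx; rfl
    | one => rfl
    | mul x y _ _ hx hy => simp [hx, hy]
    | inv x _ hx => rw [Equiv.Perm.inv_eq_iff_eq, hx]
  refine ⟨nil g hg, ?_⟩
  induction hg using Subgroup.closure_induction with
  | mem x hx =>
    obtain ⟨q, rfl⟩ := hx
    exact fun a => ⟨_, _, Subgroup.subset_closure ⟨T.δ q a, rfl⟩, T.perm_cons q a⟩
  | one => exact fun a => ⟨a, 1, T.group.one_mem, fun w => rfl⟩
  | mul x y _ _ hx hy =>
    intro a
    obtain ⟨b, g', h1, h2⟩ := hy a
    obtain ⟨c, g'', h3, h4⟩ := hx b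
    exact ⟨c, g'' * g', T.group.mul_mem h3 h1, fun w => by simp [h2, h4]⟩
  | inv x _ hx =>
    choose β γ h1 h2 using hx
    have hinj : Function.Injective β := by
      intro a a' e
      have : x [a] = x [a'] := by rw [h2, h2, nil _ (h1 a), nil _ (h1 a'), e]
      simpa using x.injective this
    intro b
    obtain ⟨a, rfl⟩ := Finite.surjective_of_injective hinj b
    refine ⟨a, (γ a)⁻¹, T.group.inv_mem (h1 a), fun w => ?_⟩
    rw [Equiv.Perm.inv_eq_iff_eq, h2]; simp

theorem bireversible_of_free [Finite Q] [Finite A] (hred : Function.Injective T.perm)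
    (hfree : IsFreeGroup T.group) (hna : ∃ g h : T.group, g * h ≠ h * g)
    (htr : ∀ a b : A, ∃ g ∈ T.group, g [a] = [b]) : T.Bireversible := by
  classical
  have hsec : ∀ (g : T.group) (a : A), ∃ p : A × T.group, ∀ w,
      (g : Equiv.Perm (List A)) (a :: w) = p.1 :: (p.2 : Equiv.Perm (List A)) w := by
    intro g a
    obtain ⟨b, g', h1, h2⟩ := (T.sections g g.2).2 a
    exact ⟨(b, ⟨g', h1⟩), h2⟩
  choose π hπ using hsec
  have uniq : ∀ (g : T.group) (a b : A) (g' : T.group),
      (∀ w, (g : Equiv.Perm (List A)) (a :: w) = b :: (g' : Equiv.Perm (List A)) w) →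
      π g a = (b, g') := by
    intro g a b g' h
    have h1 := fun w => (hπ g a w).symm.trans (h w)
    refine Prod.ext (List.cons.inj (h1 [])).1 (Subtype.ext (Equiv.ext fun w => ?_))
    exact (List.cons.inj (h1 w)).2
  have hmul : ∀ g h a, π (g * h) a = ((π g (π h a).1).1, (π g (π h a).1).2 * (π h a).2) :=
    fun g h a => uniq _ _ _ _ fun w => by simp [hπ]
  have hone : ∀ a, π 1 a = (a, 1) := fun a => uniq _ _ _ _ fun w => rfl
  let e := IsFreeGroup.toFreeGroup T.group
  letI : MulAction (FreeGroup (IsFreeGroup.Generators T.group)) A :=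
    { smul := fun g a => (π (e.symm g) a).1
      one_smul := fun a => by
        show (π (e.symm 1) a).1 = a
        rw [map_one, hone]
      mul_smul := fun g h a => by
        show (π (e.symm (g * h)) a).1 = (π (e.symm g) (π (e.symm h) a).1).1
        rw [map_mul, hmul] }
  have hsm : ∀ (g : FreeGroup (IsFreeGroup.Generators T.group)) (a : A),
      g • a = (π (e.symm g) a).1 := fun _ _ => rfl
  have : MulAction.IsPretransitive (FreeGroup (IsFreeGroup.Generators T.group)) A := by
    constructor
    intro a b
    obtain ⟨g, hg, h⟩ := htr a b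
    refine ⟨e ⟨g, hg⟩, ?_⟩
    have h1 := hπ ⟨g, hg⟩ a []
    rw [hsm, MulEquiv.symm_apply_apply]
    exact (List.cons.inj (h1.symm.trans h)).1
  let st : Q → T.group := fun q => ⟨T.perm q, Subgroup.subset_closure ⟨q, rfl⟩⟩
  have hst : ∀ q a, π (st q) a = (T.out q a, st (T.δ q a)) :=
    fun q a => uniq _ _ _ _ (T.perm_cons q a)
  have hstinv : ∀ q b, π (st q)⁻¹ b =
      ((T.out q).symm b, (st (T.δ q ((T.out q).symm b)))⁻¹) := fun q b => uniq _ _ _ _ fun w => rfl
  have := Fintype.ofFinite Q
  have key := section_injective (B := IsFreeGroup.Generators T.group) (X := A)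
    (by
      obtain ⟨g, h, hgh⟩ := hna
      refine ⟨e g, e h, fun hc => hgh (e.injective ?_)⟩
      simpa using hc.eq)
    (fun g a => e (π (e.symm g) a).2)
    (fun g h a => by simp only [map_mul, hmul, hsm])
    (by
      intro g hg
      apply e.symm.injective
      rw [map_one]
      refine Subtype.ext (Equiv.ext fun w => ?_)
      cases w with
      | nil => exact (T.sections _ (e.symm g).2).1
      | cons a w =>
        have h1 := (hg a).1
        have h2 : (π (e.symm g) a).2 = 1 := e.injective (by rw [(hg a).2, map_one])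
        rw [hsm] at h1
        rw [hπ, h1, h2]; rfl)
    (Finset.univ.image fun q => e (st q))
    (by
      have h1 : Subgroup.closure (Set.range st) = ⊤ := by
        have h2 := Subgroup.closure_closure_coe_preimage (k := Set.range T.perm)
        rw [eq_top_iff]
        refine le_trans (le_of_eq h2.symm) (Subgroup.closure_mono ?_)
        rintro x ⟨q, hq⟩
        exact ⟨q, Subtype.ext hq⟩
      have h2 := congrArg (Subgroup.map e.toMonoidHom) h1
      rw [MonoidHom.map_closure, Subgroup.map_top_of_surjective _ e.surjective] at h2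
      rw [← h2]
      congr 1
      ext x
      simp)
    (by
      intro s hs a
      obtain ⟨q, -, rfl⟩ := Finset.mem_image.1 hs
      simp only [MulEquiv.symm_apply_apply, hst]
      exact Finset.mem_image.2 ⟨_, Finset.mem_univ _, rfl⟩)
  have key2 : ∀ a (g g' : T.group), (π g a).2 = (π g' a).2 → g = g' := by
    intro a g g' h
    apply e.injective
    apply key a
    simp [h]
  have hstinj : Function.Injective st := fun q q' h => hred (congrArg Subtype.val h)
  refine ⟨fun a => Finite.injective_iff_bijective.1 fun q q' h => ?_,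
    fun b => Finite.injective_iff_bijective.1 fun q q' h => ?_⟩
  · refine hstinj (key2 a _ _ ?_)
    have h' : T.δ q a = T.δ q' a := h
    rw [hst, hst, h']
  · refine hstinj (inv_injective (key2 b _ _ ?_))
    have h' : T.δ q ((T.out q).symm b) = T.δ q' ((T.out q').symm b) := h
    rw [hstinv, hstinv, h']

end Transducer

end Pool.Agent.H958Z.BiRev
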