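import Mathlib

/-!
Basic tools on free groups: integration of edge functions on the Cayley tree, walks,
commutation transitivity, intersections of normal subgroups of finite index subgroups.
-/

namespace Pool.Agent.H958Z.BiRev

open FreeGroup hiding map_mul map_one norm

variable {B : Type}

/-- Every function on the edges of the Cayley tree is a coboundary. -/
lemma exists_integral (ε : B → FreeGroup B → ZMod 2) :
    ∃ χ : FreeGroup B → ZMod 2, χ 1 = 0 ∧ ∀ b g, χ (of b * g) = χ g + ε b g := by
  let p : B → Equiv.Perm (FreeGroup B × ZMod 2) := fun b =>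
    { toFun := fun z => (of b * z.1, z.2 + ε b z.1)
      invFun := fun z => ((of b)⁻¹ * z.1, z.2 - ε b ((of b)⁻¹ * z.1))
      left_inv := by intro z; simp
      right_inv := by intro z; simp }
  let ρ := FreeGroup.lift p
  have h1 : ∀ w : FreeGroup B, ∀ z, (ρ w z).1 = w * z.1 := by
    intro w
    induction w using FreeGroup.induction_on with
    | C1 => intro z; simp
    | of b => intro z; simp [ρ, p]
    | inv_of b _ => intro z; simp [ρ, p, Equiv.Perm.inv_def]
    | mul x y hx hy => intro z; simp [hx, hy, mul_assoc]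
  refine ⟨fun g => (ρ g (1, 0)).2, by simp, ?_⟩
  intro b g
  have h2 := h1 g (1, 0)
  simp only [mul_one] at h2
  simp only [map_mul, Equiv.Perm.mul_apply]
  have : ρ (of b) = p b := by simp [ρ]
  rw [this]
  simp [p, h2]

lemma const_of_edges {A : Type} (ψ : FreeGroup B → A) (h : ∀ b g, ψ (of b * g) = ψ g) :
    ∀ g, ψ g = ψ 1 := by
  have : ∀ w g, ψ (w * g) = ψ g := by
    intro w
    induction w using FreeGroup.induction_on with
    | C1 => intro g; simp
    | of b => exact h b
    | inv_of b _ =>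
      intro g
      have := h b ((of b)⁻¹ * g)
      simpa using this.symm
    | mul x y hx hy => intro g; rw [mul_assoc, hx, hy]
  intro g
  simpa using this g 1

lemma walk [DecidableEq B] {A : Type} (ψ : FreeGroup B → A) (R : Set (FreeGroup B))
    (h : ∀ b g, g ∈ R → of b * g ∈ R → ψ (of b * g) = ψ g) (s g : FreeGroup B)
    (hs : ∀ w : FreeGroup B, w.norm ≤ s.norm → w * g ∈ R) : ψ (s * g) = ψ g := by
  have key : ∀ L : List (B × Bool), (∀ w : FreeGroup B, w.norm ≤ L.length → w * g ∈ R) →
      ψ (mk L * g) = ψ g := by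
    intro L
    induction L with
    | nil => intro _; simp [← one_eq_mk]
    | cons x L ih =>
      intro hL
      have h1 : mk L * g ∈ R := hL _ (norm_mk_le.trans (by simp))
      have h2 : mk (x :: L) * g ∈ R := hL _ norm_mk_le
      have h3 := ih (fun w hw => hL w (hw.trans (by simp)))
      have h4 : mk (x :: L) = mk [x] * mk L := by rw [mul_mk]; rfl
      rcases x with ⟨b, _ | _⟩
      · have h5 : (mk [(b, false)] : FreeGroup B) = (of b)⁻¹ := by
          simp [of, inv_mk, invRev]
        rw [h4, h5] at h2 ⊢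
        have h6 : of b * ((of b)⁻¹ * mk L * g) = mk L * g := by group
        have := h b _ h2 (by rw [h6]; exact h1)
        rw [h6] at this
        rw [← this, h3]
      · have h5 : (mk [(b, true)] : FreeGroup B) = of b := rfl
        rw [h4, h5, mul_assoc] at h2 ⊢
        rw [h b _ h1 h2, h3]
  have := key s.toWord hs
  rwa [mk_toWord] at this

lemma ball_finite [DecidableEq B] [Finite B] (n : ℕ) :
    {w : FreeGroup B | w.norm ≤ n}.Finite := by
  have h1 : {L : List (B × Bool) | L.length ≤ n}.Finite := List.finite_length_le _ n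
  refine (h1.image mk).subset ?_
  intro w hw
  exact ⟨w.toWord, hw, mk_toWord⟩

lemma finite_basis (U : Finset (FreeGroup B)) (hU : Subgroup.closure (U : Set (FreeGroup B)) = ⊤) :
    Finite B := by
  classical
  let T : Finset B := U.biUnion fun s => (s.toWord.map Prod.fst).toFinset
  have : ∀ b, b ∈ T := by
    intro b
    by_contra hb
    let ψ : FreeGroup B →* Multiplicative ℤ :=
      FreeGroup.lift fun b' => if b' = b then Multiplicative.ofAdd 1 else 1
    have h1 : ∀ L : List (B × Bool), b ∉ L.map Prod.fst → ψ (mk L) = 1 := by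
      intro L hL
      simp only [ψ, lift_mk]
      apply List.prod_eq_one
      intro x hx
      obtain ⟨y, hy, rfl⟩ := List.mem_map.1 hx
      have : y.1 ≠ b := fun h => hL (List.mem_map.2 ⟨y, hy, h⟩)
      simp [this]
    have h2 : Subgroup.closure (U : Set (FreeGroup B)) ≤ ψ.ker := by
      rw [Subgroup.closure_le]
      intro s hs
      have := h1 s.toWord (fun h => hb (Finset.mem_biUnion.2 ⟨s, hs, List.mem_toFinset.2 h⟩))
      rwa [mk_toWord] at this
    rw [hU] at h2
    have h3 : ψ (of b) = 1 := h2 (Subgroup.mem_top _)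
    simp [ψ] at h3
  exact Finite.of_surjective (fun t : T => (t : B)) fun b => ⟨⟨b, this b⟩, rfl⟩

section Comm
variable {G : Type} [Group G] [IsMulTorsionFree G]

lemma commute_of_pow {a b : G} {n : ℕ} (hn : n ≠ 0) (h : Commute (a ^ n) b) : Commute a b := by
  have h1 : (b * a * b⁻¹) ^ n = a ^ n := by
    rw [conj_pow, ← h.eq]; group
  have h2 : b * a * b⁻¹ = a := pow_left_injective hn h1
  show a * b = b * a
  calc a * b = (b * a * b⁻¹) * b := by rw [h2]
    _ = b * a := by group

lemma commute_of_zpow {a b : G} {n : ℤ} (hn : n ≠ 0) (h : Commute (a ^ n) b) : Commute a b := by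
  apply commute_of_pow (n := n.natAbs) (by omega)
  rcases Int.natAbs_eq n with h1 | h1
  · rw [← zpow_natCast, ← h1]; exact h
  · have : (n.natAbs : ℤ) = -n := by omega
    rw [← zpow_natCast, this, zpow_neg]; exact h.inv_left

/-- A group with unique roots and a commutative subgroup of finite index is commutative. -/
lemma comm_of_finiteIndex (N : Subgroup G) (hN : N.index ≠ 0)
    (h : ∀ a ∈ N, ∀ b ∈ N, Commute a b) (a b : G) : Commute a b := by
  obtain ⟨n, hn, -, ha⟩ := N.exists_pow_mem_of_index_ne_zero hN a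
  obtain ⟨k, hk, -, hb⟩ := N.exists_pow_mem_of_index_ne_zero hN b
  exact (commute_of_pow hk.ne' (commute_of_pow hn.ne' (h _ ha _ hb)).symm).symm

end Comm

lemma cyclic_of_comm (M : Subgroup (FreeGroup B)) (h : ∀ a ∈ M, ∀ b ∈ M, Commute a b) :
    ∃ u ∈ M, ∀ a ∈ M, ∃ i : ℤ, a = u ^ i := by
  classical
  let e := IsFreeGroup.toFreeGroup M
  have hsub : Subsingleton (IsFreeGroup.Generators M) := by
    constructor
    intro x y
    by_contra hxy
    have h1 : Commute (e.symm (of x)) (e.symm (of y)) :=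
      Subtype.ext (h _ (e.symm (of x)).2 _ (e.symm (of y)).2).eq
    have h2 : (of x : FreeGroup _) * of y = of y * of x := by
      have := congrArg e h1.eq
      simpa using this
    have h3 := congrArg toWord h2
    have h4 : ∀ x y : IsFreeGroup.Generators M, x ≠ y →
        ((of x : FreeGroup _) * of y).toWord = [(x, true), (y, true)] := by
      intro x y hxy
      simp [of, mul_mk, toWord_mk, reduce]
    rw [h4 x y hxy, h4 y x (Ne.symm hxy)] at h3
    simp [hxy] at h3
  by_cases hne : Nonempty (IsFreeGroup.Generators M)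
  · obtain ⟨x⟩ := hne
    refine ⟨(e.symm (of x) : M), (e.symm (of x)).2, ?_⟩
    intro a ha
    have h1 : ∀ w : FreeGroup (IsFreeGroup.Generators M), ∃ i : ℤ, w = of x ^ i := by
      intro w
      induction w using FreeGroup.induction_on with
      | C1 => exact ⟨0, by simp⟩
      | of b => exact ⟨1, by rw [Subsingleton.elim b x]; simp⟩
      | inv_of b _ => exact ⟨-1, by rw [Subsingleton.elim b x]; simp⟩
      | mul x y hx hy =>
        obtain ⟨i, rfl⟩ := hx
        obtain ⟨j, rfl⟩ := hy
        exact ⟨i + j, by rw [zpow_add]⟩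
    obtain ⟨i, hi⟩ := h1 (e ⟨a, ha⟩)
    refine ⟨i, ?_⟩
    have h2 : (⟨a, ha⟩ : M) = e.symm (of x) ^ i := by
      rw [← map_zpow, ← hi]; simp
    have := congrArg Subtype.val h2
    simpa using this
  · refine ⟨1, M.one_mem, ?_⟩
    intro a ha
    have h1 : ∀ w : FreeGroup (IsFreeGroup.Generators M), w = 1 := by
      intro w
      induction w using FreeGroup.induction_on with
      | C1 => rfl
      | of b => exact absurd ⟨b⟩ hne
      | inv_of b _ => exact absurd ⟨b⟩ hne
      | mul x y hx hy => rw [hx, hy, mul_one]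
    have h2 : (⟨a, ha⟩ : M) = 1 := by
      apply e.injective; rw [h1 (e _), map_one]
    exact ⟨0, by simpa using congrArg Subtype.val h2⟩

lemma common_root {a b : FreeGroup B} (h : Commute a b) :
    ∃ (u : FreeGroup B) (i j : ℤ), a = u ^ i ∧ b = u ^ j := by
  obtain ⟨u, -, hu⟩ := cyclic_of_comm (Subgroup.closure {a, b}) (by
    intro x hx y hy
    have := Subgroup.closure_induction₂ (p := fun x y _ _ => Commute x y) (k := {a, b})
      (by
        intro x y hx hy
        rcases hx with rfl | rfl <;> rcases hy with rfl | rfl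
        · exact Commute.refl _
        · exact h
        · exact h.symm
        · exact Commute.refl _)
      (fun x _ => Commute.one_left x) (fun x _ => Commute.one_right x)
      (fun x y z _ _ _ h1 h2 => h1.mul_left h2) (fun x y z _ _ _ h1 h2 => h1.mul_right h2)
      (fun x y _ _ h1 => h1.inv_left) (fun x y _ _ h1 => h1.inv_right) hx hy
    exact this)
  obtain ⟨i, hi⟩ := hu a (Subgroup.subset_closure (by simp))
  obtain ⟨j, hj⟩ := hu b (Subgroup.subset_closure (by simp))
  exact ⟨u, i, j, hi, hj⟩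

lemma commute_trans {a b c : FreeGroup B} (hb : b ≠ 1) (h1 : Commute a b) (h2 : Commute c b) :
    Commute a c := by
  obtain ⟨u, i, j, rfl, hj⟩ := common_root h1
  obtain ⟨v, k, l, rfl, hl⟩ := common_root h2
  have hj0 : j ≠ 0 := by rintro rfl; exact hb (by simpa using hj)
  have h3 : Commute (u ^ j) v := by
    rw [← hj, hl]; exact (Commute.refl v).zpow_left l
  exact ((commute_of_zpow hj0 h3).zpow_left i).zpow_right k

/-- Two non-trivial subgroups normalised by a finite index subgroup containing them meet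
non-trivially. -/
lemma inter_nontrivial (hnc : ∃ a b : FreeGroup B, ¬ Commute a b) (N M₁ M₂ : Subgroup (FreeGroup B))
    (hN : N.index ≠ 0) (h1 : M₁ ≤ N) (h2 : M₂ ≤ N)
    (n1 : ∀ n ∈ N, ∀ a ∈ M₁, n * a * n⁻¹ ∈ M₁) (n2 : ∀ n ∈ N, ∀ a ∈ M₂, n * a * n⁻¹ ∈ M₂)
    (e1 : ∃ a ∈ M₁, a ≠ 1) (e2 : ∃ a ∈ M₂, a ≠ 1) : ∃ a ∈ M₁ ⊓ M₂, a ≠ 1 := by
  by_contra hcon
  push Not at hcon
  obtain ⟨b, hb, hb1⟩ := e2
  have hc : ∀ a ∈ M₁, Commute a b := by
    intro a ha
    have h3 : a * b * a⁻¹ * b⁻¹ ∈ M₁ ⊓ M₂ := by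
      constructor
      · have := M₁.mul_mem ha (n1 b (h2 hb) _ (M₁.inv_mem ha))
        simpa [mul_assoc] using this
      · exact M₂.mul_mem (n2 a (h1 ha) b hb) (M₂.inv_mem hb)
    have h4 := hcon _ h3
    show a * b = b * a
    calc a * b = (a * b * a⁻¹ * b⁻¹) * (b * a) := by group
      _ = b * a := by rw [h4, one_mul]
  obtain ⟨u, hu, hgen⟩ := cyclic_of_comm M₁ fun a ha a' ha' => commute_trans hb1 (hc a ha) (hc a' ha')
  have hu1 : u ≠ 1 := by
    rintro rfl
    obtain ⟨a, ha, ha1⟩ := e1
    obtain ⟨i, hi⟩ := hgen a ha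
    exact ha1 (by simpa using hi)
  have hNu : ∀ n ∈ N, Commute n u := by
    intro n hn
    obtain ⟨i, hi⟩ := hgen _ (n1 n hn u hu)
    obtain ⟨j, hj⟩ := hgen _ (n1 n⁻¹ (N.inv_mem hn) u hu)
    have h3 : u ^ (i * j) = u ^ (1 : ℤ) := by
      rw [zpow_mul, ← hi, conj_zpow, ← hj]; group
    have h4 : i * j = 1 := by
      by_contra hne
      have h5 : u ^ (i * j - 1) = 1 := by rw [zpow_sub, h3]; simp
      have h6 : u ^ (i * j - 1) = 1 ^ (i * j - 1) := by rw [h5, one_zpow]
      exact hu1 (zpow_left_injective (by omega) h6)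
    have h5 : n ^ 2 * u * (n ^ 2)⁻¹ = u := by
      have h6 : n ^ 2 * u * (n ^ 2)⁻¹ = n * (n * u * n⁻¹) * n⁻¹ := by
        rw [sq, mul_inv_rev]; simp only [mul_assoc]
      rw [h6, hi, ← conj_zpow, hi, ← zpow_mul]
      rcases Int.eq_one_or_neg_one_of_mul_eq_one h4 with rfl | rfl <;> simp
    apply commute_of_pow (n := 2) (by norm_num)
    show n ^ 2 * u = u * n ^ 2
    calc n ^ 2 * u = (n ^ 2 * u * (n ^ 2)⁻¹) * n ^ 2 := by group
      _ = u * n ^ 2 := by rw [h5]
  obtain ⟨a, b', hab⟩ := hnc
  exact hab (comm_of_finiteIndex N hN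
    (fun x hx y hy => commute_trans hu1 (hNu x hx) (hNu y hy)) a b')

end Pool.Agent.H958Z.BiRev
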